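import Pool.Agent.Helper39_NoBal.Cov2

/-!
# Deterministic inequalities for a change of the potential at one site
-/

set_option autoImplicit false
set_option linter.unusedSectionVars false

open scoped ENNReal InnerProductSpace ComplexConjugate Topology Interval
open Filter MeasureTheory Set

noncomputable section

namespace Pool.Agent.NoBal

variable {G : Type*} [AddCommGroup G] [Countable G] [DecidableEq G]
  {T : E G →L[ℂ] E G} (hT : Hop T)

attribute [local irreducible] RR UU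

section single
variable (V : G → ℝ) {z : ℂ} (hz : 0 < z.im) {A : E G →L[ℂ] E G}
  (hA : ∀ t f, A (UU T V t f) = UU T V t (A f)) (ha : tr A = -A)

include hT hz hA ha

theorem RR_A_diag (x : G) : RR T V z (A (del x)) x = 0 := by
  have h1 : tr ((RL hT V hz).comp A) = -((RL hT V hz).comp A) := by
    rw [tr_comp, ha, tr_RL]
    ext1 f
    simp only [ContinuousLinearMap.comp_apply, _root_.neg_apply, RL_apply]
    rw [comm_RR hT V hz hA]
  have h2 := tr_del ((RL hT V hz).comp A) x x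
  rw [h1] at h2
  simp only [ContinuousLinearMap.comp_apply, _root_.neg_apply, RL_apply, coe_neg] at h2
  have h3 : (2 : ℂ) * RR T V z (A (del x)) x = 0 := by linear_combination -h2
  simpa using h3

theorem RC_A_diag (x : G) : RC T V z (A (del x)) x = 0 := by
  have h1 : tr ((RCL hT V hz).comp A) = -((RCL hT V hz).comp A) := by
    rw [tr_comp, ha, tr_RCL]
    ext1 f
    simp only [ContinuousLinearMap.comp_apply, _root_.neg_apply, RCL_apply]
    rw [comm_RC hT V hz hA]
  have h2 := tr_del ((RCL hT V hz).comp A) x x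
  rw [h1] at h2
  simp only [ContinuousLinearMap.comp_apply, _root_.neg_apply, RCL_apply, coe_neg] at h2
  have h3 : (2 : ℂ) * RC T V z (A (del x)) x = 0 := by linear_combination -h2
  simpa using h3

omit ha in
theorem im_norm_sq_RR_A_le {C : ℝ} (hC : ‖A‖ ≤ C) :
    z.im * ‖RR T V z (A (del 0))‖ ^ 2 ≤ C ^ 2 * (RR T V z (del 0) 0).im := by
  rw [im_RR_del hT V hz, ← comm_RR hT V hz hA]
  have h1 : ‖A (RR T V z (del 0))‖ ≤ C * ‖RR T V z (del 0)‖ :=
    (A.le_opNorm _).trans (mul_le_mul_of_nonneg_right hC (norm_nonneg _))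
  have h2 : ‖A (RR T V z (del 0))‖ ^ 2 ≤ (C * ‖RR T V z (del 0)‖) ^ 2 := by gcongr
  calc z.im * ‖A (RR T V z (del 0))‖ ^ 2 ≤ z.im * (C * ‖RR T V z (del 0)‖) ^ 2 :=
        mul_le_mul_of_nonneg_left h2 hz.le
    _ = _ := by ring

end single

theorem RC_del_apply (V : G → ℝ) (z : ℂ) (x y : G) :
    RC T V z (del x) y = conj (RR T V z (del x) y) := by
  unfold RC
  rw [star_del, coe_star]

section pair
variable (V V' : G → ℝ) {s : ℝ} (hV : ∀ x, V' x = V x + if x = 0 then s else 0) {z : ℂ}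
  (hz : 0 < z.im)
include hT hz hV

theorem RC_rank_one_del :
    (1 + (s : ℂ) * conj (RR T V z (del 0) 0)) • RC T V' z (del 0) = RC T V z (del 0) := by
  have h := RR_rank_one_del hT V hz hV
  have h2 := congrArg star h
  unfold RC
  rw [star_del, ← h2, star_smul]
  congr 1
  simp

theorem RC_rank_one_zero {f : E G} (h0 : RC T V' z f 0 = 0) : RC T V' z f = RC T V z f := by
  unfold RC at h0 ⊢
  rw [coe_star] at h0
  have h1 : RR T V' z (star f) 0 = 0 := by simpa using h0
  rw [RR_rank_one_zero hT V hz hV h1]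

/-- relation of the two diagonal Green functions -/
theorem green_rel :
    (1 + (s : ℂ) * RR T V z (del 0) 0) * RR T V' z (del 0) 0 = RR T V z (del 0) 0 := by
  have h := congrArg (fun u : E G => u 0) (RR_rank_one_del hT V hz hV)
  exact h

variable {A A' : E G →L[ℂ] E G}
  (hA : ∀ t f, A (UU T V t f) = UU T V t (A f)) 
  (hA' : ∀ t f, A' (UU T V' t f) = UU T V' t (A' f)) (ha' : tr A' = -A')

include hA' ha'

theorem norm_RR_A'_eq : RR T V' z (A' (del 0)) = RR T V z (A' (del 0)) :=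
  RR_rank_one_zero hT V hz hV (RR_A_diag hT V' hz hA' ha' 0)

theorem A'_RR :
    A' (RR T V z (del 0)) =
      (1 + (s : ℂ) * RR T V z (del 0) 0) • RR T V z (A' (del 0)) := by
  conv_lhs => rw [← RR_rank_one_del hT V hz hV]
  rw [map_smul, comm_RR hT V' hz hA', norm_RR_A'_eq hT V V' hV hz hA' ha']

theorem A'_RC :
    A' (RC T V z (del 0)) =
      (1 + (s : ℂ) * conj (RR T V z (del 0) 0)) • RC T V z (A' (del 0)) := by
  conv_lhs => rw [← RC_rank_one_del hT V V' hV hz]
  rw [map_smul, comm_RC hT V' hz hA',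
    RC_rank_one_zero hT V V' hV hz (RC_A_diag hT V' hz hA' ha' 0)]

include hA

/-- the key inequality: an operator family commuting with `H` has to see the scattering off a
single site perturbation -/
theorem key_pair :
    2 * |s| * (RR T V z (del 0) 0).im * ‖RR T V' z (A' (del 0))‖ ≤
      ‖(A' - A) (RR T V z (del 0))‖ + ‖(A' - A) (RC T V z (del 0))‖ := by
  set g : ℂ := RR T V z (del 0) 0 with hg
  have hgpos : 0 < g.im := im_RR_del_pos hT V hz 0
  have e1 : (A' - A) (RR T V z (del 0)) =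
      RR T V z ((1 + (s : ℂ) * g) • A' (del 0) - A (del 0)) := by
    rw [_root_.sub_apply, A'_RR hT V V' hV hz hA' ha', RR_sub hT V hz, RR_smul hT V hz,
      comm_RR hT V hz hA]
  have e2 : (A' - A) (RC T V z (del 0)) =
      RC T V z ((1 + (s : ℂ) * conj g) • A' (del 0) - A (del 0)) := by
    rw [_root_.sub_apply, A'_RC hT V V' hV hz hA' ha', RC_sub hT V hz, RC_smul hT V hz,
      comm_RC hT V hz hA]
  rw [e2, norm_RC hT V hz, e1, norm_RR_A'_eq hT V V' hV hz hA' ha']
  have e3 : (((s : ℂ) * (g - conj g)) • RR T V z (A' (del 0))) =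
      RR T V z ((1 + (s : ℂ) * g) • A' (del 0) - A (del 0)) -
      RR T V z ((1 + (s : ℂ) * conj g) • A' (del 0) - A (del 0)) := by
    rw [← RR_sub hT V hz, ← RR_smul hT V hz]
    congr 1
    rw [sub_sub_sub_cancel_right, ← sub_smul]
    congr 1
    ring
  have h4 : ‖(((s : ℂ) * (g - conj g)) • RR T V z (A' (del 0)))‖ =
      2 * |s| * g.im * ‖RR T V z (A' (del 0))‖ := by
    rw [norm_smul, norm_mul, Complex.norm_real, Real.norm_eq_abs]
    have h5 : g - conj g = ((2 * g.im : ℝ) : ℂ) * Complex.I := Complex.sub_conj g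
    rw [h5, norm_mul, Complex.norm_I, mul_one, Complex.norm_real, Real.norm_of_nonneg (by positivity)]
    ring
  rw [← h4, e3]
  exact norm_sub_le _ _

/-- the key inequality with a local approximation `B` -/
theorem key_pair_local (B B' : E G →L[ℂ] E G) :
    4 * s ^ 2 * (RR T V z (del 0) 0).im ^ 2 * (z.im * ‖RR T V' z (A' (del 0))‖ ^ 2) ≤
      6 * (‖1 + (s : ℂ) * RR T V z (del 0) 0‖ ^ 2 *
          (z.im * ‖(A' - B') (RR T V' z (del 0))‖ ^ 2 + z.im * ‖(A' - B') (RC T V' z (del 0))‖ ^ 2)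
        + (z.im * ‖(B' - B) (RR T V z (del 0))‖ ^ 2 + z.im * ‖(B' - B) (RC T V z (del 0))‖ ^ 2)
        + (z.im * ‖(A - B) (RR T V z (del 0))‖ ^ 2 + z.im * ‖(A - B) (RC T V z (del 0))‖ ^ 2)) := by
  set g : ℂ := RR T V z (del 0) 0 with hg
  have hgpos : 0 < g.im := im_RR_del_pos hT V hz 0
  have h1 := key_pair hT V V' hV hz hA hA' ha'
  rw [← hg] at h1
  set c : ℝ := ‖1 + (s : ℂ) * g‖ with hc
  have hdec : ∀ u : E G, (A' - A) u = (A' - B') u + (B' - B) u - (A - B) u := by
    intro u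
    simp only [_root_.sub_apply]
    abel
  have h2 : ‖(A' - A) (RR T V z (del 0))‖ ≤ c * ‖(A' - B') (RR T V' z (del 0))‖ +
      ‖(B' - B) (RR T V z (del 0))‖ + ‖(A - B) (RR T V z (del 0))‖ := by
    rw [hdec]
    refine (norm_sub_le _ _).trans (add_le_add ((norm_add_le _ _).trans (add_le_add ?_ le_rfl)) le_rfl)
    conv_lhs => rw [← RR_rank_one_del hT V hz hV]
    rw [map_smul, norm_smul]
  have h3 : ‖(A' - A) (RC T V z (del 0))‖ ≤ c * ‖(A' - B') (RC T V' z (del 0))‖ +
      ‖(B' - B) (RC T V z (del 0))‖ + ‖(A - B) (RC T V z (del 0))‖ := by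
    rw [hdec]
    refine (norm_sub_le _ _).trans (add_le_add ((norm_add_le _ _).trans (add_le_add ?_ le_rfl)) le_rfl)
    conv_lhs => rw [← RC_rank_one_del hT V V' hV hz]
    rw [map_smul, norm_smul]
    have h4 : ‖1 + (s : ℂ) * conj g‖ = c := by
      rw [hc, ← Complex.norm_conj]
      congr 1
      simp
    rw [h4]
  set a1 := c * ‖(A' - B') (RR T V' z (del 0))‖
  set a2 := ‖(B' - B) (RR T V z (del 0))‖
  set a3 := ‖(A - B) (RR T V z (del 0))‖
  set b1 := c * ‖(A' - B') (RC T V' z (del 0))‖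
  set b2 := ‖(B' - B) (RC T V z (del 0))‖
  set b3 := ‖(A - B) (RC T V z (del 0))‖
  have h5 : 2 * |s| * g.im * ‖RR T V' z (A' (del 0))‖ ≤ a1 + a2 + a3 + (b1 + b2 + b3) :=
    h1.trans (add_le_add h2 h3)
  have h6 : (2 * |s| * g.im * ‖RR T V' z (A' (del 0))‖) ^ 2 ≤
      (a1 + a2 + a3 + (b1 + b2 + b3)) ^ 2 :=
    pow_le_pow_left₀ (by positivity) h5 2
  have h7 : (a1 + a2 + a3 + (b1 + b2 + b3)) ^ 2 ≤
      6 * (a1 ^ 2 + a2 ^ 2 + a3 ^ 2 + (b1 ^ 2 + b2 ^ 2 + b3 ^ 2)) := by
    nlinarith [sq_nonneg (a1 - a2), sq_nonneg (a1 - a3), sq_nonneg (a1 - b1), sq_nonneg (a1 - b2),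
      sq_nonneg (a1 - b3), sq_nonneg (a2 - a3), sq_nonneg (a2 - b1), sq_nonneg (a2 - b2),
      sq_nonneg (a2 - b3), sq_nonneg (a3 - b1), sq_nonneg (a3 - b2), sq_nonneg (a3 - b3),
      sq_nonneg (b1 - b2), sq_nonneg (b1 - b3), sq_nonneg (b2 - b3)]
  have h8 : (2 * |s| * g.im * ‖RR T V' z (A' (del 0))‖) ^ 2 =
      4 * s ^ 2 * g.im ^ 2 * ‖RR T V' z (A' (del 0))‖ ^ 2 := by
    rw [mul_pow, mul_pow, mul_pow, sq_abs]; ring
  rw [h8] at h6
  have h9 := mul_le_mul_of_nonneg_left (h6.trans h7) hz.le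
  calc _ = z.im * (4 * s ^ 2 * g.im ^ 2 * ‖RR T V' z (A' (del 0))‖ ^ 2) := by ring
    _ ≤ _ := h9
    _ = _ := by
      simp only [a1, b1]
      ring

end pair

end Pool.Agent.NoBal
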