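import Pool.Agent.Helper39_NoBal.Core1

/-!
# The pointwise estimate at good energies
-/

set_option autoImplicit false
set_option linter.unusedSectionVars false

open scoped ENNReal InnerProductSpace ComplexConjugate Topology Interval
open Filter MeasureTheory Set

noncomputable section

namespace Pool.Agent.NoBal

theorem min_lemma {X M a b : ℝ} (ha : 0 ≤ a) (hb : 0 ≤ b) (hM : 0 ≤ M) (h1 : X ≤ M)
    (h2 : X ≤ a + b ^ 2) : X ≤ a + Real.sqrt M * b := by
  rcases le_total b (Real.sqrt M) with h | h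
  · have : b ^ 2 ≤ Real.sqrt M * b := by nlinarith
    linarith
  · have h3 : Real.sqrt M * Real.sqrt M = M := Real.mul_self_sqrt hM
    have h4 : M ≤ Real.sqrt M * b := by nlinarith [Real.sqrt_nonneg M]
    linarith

/-- relation of Green functions, elementary consequences -/
theorem green_bounds {g g' : ℂ} {s δ K r L : ℝ} (hrel : (1 + (s : ℂ) * g) * g' = g)
    (hg' : δ ≤ g'.im) (hδ : 0 < δ) (hK : ‖g'‖ ≤ K) (hr : 0 < r) (hs1 : r ≤ |s|)
    (hs2 : |s| ≤ 2 * L) :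
    δ / (1 + 2 * L * K) ^ 2 ≤ g.im ∧ ‖1 + (s : ℂ) * g‖ ≤ 1 / (r * δ) := by
  set w : ℂ := 1 - (s : ℂ) * g' with hw
  have h1 : w * (1 + (s : ℂ) * g) = 1 := by
    rw [hw]; linear_combination (-(s : ℂ)) * hrel
  have hw0 : w ≠ 0 := by
    rintro h; rw [h, zero_mul] at h1; exact zero_ne_one h1
  have h2 : w * g = g' := by
    rw [hw]; linear_combination -(hrel)
  have hK0 : 0 ≤ K := (norm_nonneg _).trans hK
  have hL0 : 0 ≤ 2 * L := (abs_nonneg s).trans hs2
  have hwn : ‖w‖ ≤ 1 + 2 * L * K := by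
    rw [hw]
    refine (norm_sub_le _ _).trans ?_
    rw [norm_one, norm_mul, Complex.norm_real, Real.norm_eq_abs]
    gcongr
  have hwn2 : r * δ ≤ ‖w‖ := by
    have h3 := Complex.abs_im_le_norm w
    have h4 : w.im = -(s * g'.im) := by
      rw [hw]; simp
    rw [h4, abs_neg, abs_mul] at h3
    have h5 : δ ≤ |g'.im| := hg'.trans (le_abs_self _)
    calc r * δ ≤ |s| * |g'.im| := by gcongr
      _ ≤ ‖w‖ := h3
  have hwpos : 0 < ‖w‖ := norm_pos_iff.2 hw0
  constructor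
  · have h3 : g = g' / w := by rw [eq_div_iff hw0, mul_comm]; exact h2
    have h4 : g.im = g'.im / ‖w‖ ^ 2 := by
      have h5 : g = g' * conj w / ((‖w‖ ^ 2 : ℝ) : ℂ) := by
        rw [h3, div_eq_div_iff hw0 (by
          rw [Ne, Complex.ofReal_eq_zero]; positivity)]
        have h6 : conj w * w = ((‖w‖ ^ 2 : ℝ) : ℂ) := by
          rw [← Complex.normSq_eq_conj_mul_self, Complex.normSq_eq_norm_sq]
        rw [mul_assoc, h6]
      rw [h5, Complex.div_ofReal_im]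
      congr 1
      rw [hw]
      simp only [map_sub, map_one, map_mul, Complex.conj_ofReal, Complex.mul_im, Complex.sub_re,
        Complex.sub_im, Complex.one_re, Complex.one_im, Complex.mul_re, Complex.ofReal_re,
        Complex.ofReal_im, Complex.conj_re, Complex.conj_im]
      ring
    rw [h4]
    have h7 : ‖w‖ ^ 2 ≤ (1 + 2 * L * K) ^ 2 := by gcongr
    have h8 : 0 < ‖w‖ ^ 2 := by positivity
    exact div_le_div₀ (hδ.le.trans hg') hg' h8 h7
  · have h3 : ‖w‖ * ‖1 + (s : ℂ) * g‖ = 1 := by rw [← norm_mul, h1, norm_one]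
    rw [le_div_iff₀ (by positivity)]
    calc ‖1 + (s : ℂ) * g‖ * (r * δ) ≤ ‖1 + (s : ℂ) * g‖ * ‖w‖ := by gcongr
      _ = 1 := by rw [mul_comm]; exact h3

variable {G : Type*} [AddCommGroup G] [Countable G] [DecidableEq G]
  {T : E G →L[ℂ] E G} (hT : Hop T)

attribute [local irreducible] RR UU

/-- a family that depends on the potential at `0` only through finitely many columns -/
structure Loc (B : (G → ℝ) → (E G →L[ℂ] E G)) (F : Finset G) (CB : ℝ) : Prop where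
  nonneg : 0 ≤ CB
  bd : ∀ (V : G → ℝ) (v v' : ℝ) (u : E G),
    ‖(B (Function.update V 0 v') - B (Function.update V 0 v)) u‖ ≤ CB * ∑ y ∈ F, ‖u y‖

theorem update_rel (V : G → ℝ) (v v' : ℝ) :
    ∀ x, Function.update V 0 v' x = Function.update V 0 v x + if x = 0 then v' - v else 0 := by
  intro x
  by_cases h : x = 0
  · subst h; simp
  · simp [h]

include hT

/-- The pointwise estimate. -/
theorem pointwise {A B : (G → ℝ) → (E G →L[ℂ] E G)} {F : Finset G} {CB C : ℝ}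
    (hA : ∀ V t f, A V (UU T V t f) = UU T V t (A V f)) (ha : ∀ V, tr (A V) = -A V)
    (hC : ∀ V, ‖A V‖ ≤ C) (hB : Loc B F CB) {V : G → ℝ} {v v' r L δ K : ℝ} {z : ℂ}
    (hz : 0 < z.im) (hr : 0 < r) (hL : 0 < L) (hδ : 0 < δ) (hK0 : 0 ≤ K)
    (hv : |v| ≤ L) (hv' : |v'| ≤ L) (hvv : r ≤ |v' - v|)
    (hg1 : δ ≤ (RR T (Function.update V 0 v') z (del 0) 0).im)
    (hg2 : ‖RR T (Function.update V 0 v') z (del 0) 0‖ ≤ K) :
    z.im * ‖RR T (Function.update V 0 v') z (A (Function.update V 0 v') (del 0))‖ ^ 2 ≤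
      (6 / (4 * r ^ 2 * (δ / (1 + 2 * L * K) ^ 2) ^ 2)) * (1 / (r * δ)) ^ 2 *
        (z.im * ‖(A (Function.update V 0 v') - B (Function.update V 0 v'))
            (RR T (Function.update V 0 v') z (del 0))‖ ^ 2 +
         z.im * ‖(A (Function.update V 0 v') - B (Function.update V 0 v'))
            (RC T (Function.update V 0 v') z (del 0))‖ ^ 2) +
      (6 / (4 * r ^ 2 * (δ / (1 + 2 * L * K) ^ 2) ^ 2)) *
        (z.im * ‖(A (Function.update V 0 v) - B (Function.update V 0 v))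
            (RR T (Function.update V 0 v) z (del 0))‖ ^ 2 +
         z.im * ‖(A (Function.update V 0 v) - B (Function.update V 0 v))
            (RC T (Function.update V 0 v) z (del 0))‖ ^ 2) +
      Real.sqrt (C ^ 2 * K) *
        (Real.sqrt (2 * (6 / (4 * r ^ 2 * (δ / (1 + 2 * L * K) ^ 2) ^ 2))) * CB *
          ∑ y ∈ F, Real.sqrt z.im * ‖RR T (Function.update V 0 v) z (del 0) y‖) := by
  set V1 := Function.update V 0 v with hV1
  set V2 := Function.update V 0 v' with hV2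
  have hV : ∀ x, V2 x = V1 x + if x = 0 then v' - v else 0 := update_rel V v v'
  set g : ℂ := RR T V1 z (del 0) 0 with hg
  set g' : ℂ := RR T V2 z (del 0) 0 with hg'
  have hrel : (1 + ((v' - v : ℝ) : ℂ) * g) * g' = g := green_rel hT V1 V2 hV hz
  have hs2 : |v' - v| ≤ 2 * L := by
    have := abs_sub v' v
    linarith
  obtain ⟨hb1, hb2⟩ := green_bounds hrel hg1 hδ hg2 hr hvv hs2
  set δ1 : ℝ := δ / (1 + 2 * L * K) ^ 2 with hδ1
  have hδ1pos : 0 < δ1 := by positivity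
  set c0 : ℝ := 6 / (4 * r ^ 2 * δ1 ^ 2) with hc0
  have hc0pos : 0 < c0 := by positivity
  have hkey := key_pair_local hT V1 V2 hV hz (hA V1) (hA V2) (ha V2) (B V1) (B V2)
  rw [← hg] at hkey
  set X : ℝ := z.im * ‖RR T V2 z (A V2 (del 0))‖ ^ 2 with hX
  have hX0 : 0 ≤ X := by positivity
  set N' : ℝ := z.im * ‖(A V2 - B V2) (RR T V2 z (del 0))‖ ^ 2 +
         z.im * ‖(A V2 - B V2) (RC T V2 z (del 0))‖ ^ 2 with hN'
  set N : ℝ := z.im * ‖(A V1 - B V1) (RR T V1 z (del 0))‖ ^ 2 +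
         z.im * ‖(A V1 - B V1) (RC T V1 z (del 0))‖ ^ 2 with hN
  set S : ℝ := ∑ y ∈ F, ‖RR T V1 z (del 0) y‖ with hS
  have hS0 : 0 ≤ S := Finset.sum_nonneg fun _ _ => norm_nonneg _
  have hN'0 : 0 ≤ N' := by positivity
  have hN0 : 0 ≤ N := by positivity
  have hCB := hB.nonneg
  have hBB : z.im * ‖(B V2 - B V1) (RR T V1 z (del 0))‖ ^ 2 +
      z.im * ‖(B V2 - B V1) (RC T V1 z (del 0))‖ ^ 2 ≤ 2 * (z.im * (CB * S) ^ 2) := by
    have h1 := hB.bd V v v' (RR T V1 z (del 0))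
    have h2 := hB.bd V v v' (RC T V1 z (del 0))
    rw [← hV1, ← hV2] at h1 h2
    have h3 : ∑ y ∈ F, ‖RC T V1 z (del 0) y‖ = S := by
      refine Finset.sum_congr rfl fun y _ => ?_
      rw [RC_del_apply, Complex.norm_conj]
    rw [h3] at h2
    have h4 : ‖(B V2 - B V1) (RR T V1 z (del 0))‖ ^ 2 ≤ (CB * S) ^ 2 := by gcongr
    have h5 : ‖(B V2 - B V1) (RC T V1 z (del 0))‖ ^ 2 ≤ (CB * S) ^ 2 := by gcongr
    nlinarith
  have hmain : X ≤ c0 * (1 / (r * δ)) ^ 2 * N' + c0 * N + 2 * c0 * (z.im * (CB * S) ^ 2) := by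
    have h1 : 4 * r ^ 2 * δ1 ^ 2 * X ≤ 4 * (v' - v) ^ 2 * g.im ^ 2 * X := by
      have h2 : r ^ 2 ≤ (v' - v) ^ 2 := by
        rw [← sq_abs (v' - v)]; gcongr
      have h3 : δ1 ^ 2 ≤ g.im ^ 2 := by gcongr
      gcongr
    have h4 : ‖1 + ((v' - v : ℝ) : ℂ) * g‖ ^ 2 ≤ (1 / (r * δ)) ^ 2 := by gcongr
    have h5 : 4 * r ^ 2 * δ1 ^ 2 * X ≤ 6 * ((1 / (r * δ)) ^ 2 * N' + 2 * (z.im * (CB * S) ^ 2) + N) := by
      refine h1.trans (hkey.trans ?_)
      have h6 : ‖1 + ((v' - v : ℝ) : ℂ) * g‖ ^ 2 * N' ≤ (1 / (r * δ)) ^ 2 * N' := by gcongr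
      linarith
    have h7 : 0 < 4 * r ^ 2 * δ1 ^ 2 := by positivity
    have h8 : X ≤ (6 * ((1 / (r * δ)) ^ 2 * N' + 2 * (z.im * (CB * S) ^ 2) + N)) /
        (4 * r ^ 2 * δ1 ^ 2) := by
      rw [le_div_iff₀ h7]; linarith
    refine h8.trans (le_of_eq ?_)
    rw [hc0]
    ring
  have hXM : X ≤ C ^ 2 * K := by
    have h1 := im_norm_sq_RR_A_le hT V2 hz (hA V2) (hC V2)
    rw [← hg'] at h1
    refine h1.trans ?_
    have h2 : g'.im ≤ K := (le_abs_self _).trans ((Complex.abs_im_le_norm g').trans hg2)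
    gcongr
  have hb : 2 * c0 * (z.im * (CB * S) ^ 2) = (Real.sqrt (2 * c0) * CB * (Real.sqrt z.im * S)) ^ 2 := by
    rw [mul_pow, mul_pow, mul_pow, mul_pow, Real.sq_sqrt (by positivity), Real.sq_sqrt hz.le]
    ring
  rw [hb] at hmain
  have hfin := min_lemma (M := C ^ 2 * K) (a := c0 * (1 / (r * δ)) ^ 2 * N' + c0 * N)
    (b := Real.sqrt (2 * c0) * CB * (Real.sqrt z.im * S)) (by positivity) (by positivity)
    (by positivity) hXM hmain
  have e : ∑ y ∈ F, Real.sqrt z.im * ‖RR T V1 z (del 0) y‖ = Real.sqrt z.im * S := by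
    rw [hS, Finset.mul_sum]
  rw [e]
  exact hfin

end Pool.Agent.NoBal
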