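import Pool.Agent.Helper39_NoBal.Core2

/-!
# The averaged estimate at good energies
-/

set_option autoImplicit false
set_option linter.unusedSectionVars false

open scoped ENNReal InnerProductSpace ComplexConjugate Topology Interval
open Filter MeasureTheory Set

noncomputable section

namespace Pool.Agent.NoBal

variable {G : Type*} [AddCommGroup G] [Countable G] [DecidableEq G]
  {T : E G →L[ℂ] E G} (hT : Hop T)

attribute [local irreducible] RR UU

/-- `ε ‖R(z) A δ₀‖²` -/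
def mm (T : E G →L[ℂ] E G) (ε : ℝ) (A : (G → ℝ) → (E G →L[ℂ] E G)) (V : G → ℝ) (a : ℝ) : ℝ≥0∞ :=
  ENNReal.ofReal ε * ‖RR T V (zz ε a) (A V (del 0))‖ₑ ^ 2

/-- `ε ‖D R(z) δ₀‖²` -/
def nn (T : E G →L[ℂ] E G) (ε : ℝ) (D : (G → ℝ) → (E G →L[ℂ] E G)) (V : G → ℝ) (a : ℝ) : ℝ≥0∞ :=
  ENNReal.ofReal ε * ‖D V (RR T V (zz ε a) (del 0))‖ₑ ^ 2

/-- `ε ‖D R(conj z) δ₀‖²` -/
def nc (T : E G →L[ℂ] E G) (ε : ℝ) (D : (G → ℝ) → (E G →L[ℂ] E G)) (V : G → ℝ) (a : ℝ) : ℝ≥0∞ :=
  ENNReal.ofReal ε * ‖D V (RC T V (zz ε a) (del 0))‖ₑ ^ 2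

/-- `√ε |R(z)(0,y)|` -/
def qq (T : E G →L[ℂ] E G) (ε : ℝ) (y : G) (V : G → ℝ) (a : ℝ) : ℝ≥0∞ :=
  ENNReal.ofReal (Real.sqrt ε) * ‖RR T V (zz ε a) (del 0) y‖ₑ

/-- the good set of potentials at the energy `a` -/
def good (T : E G →L[ℂ] E G) (ε δ K L : ℝ) (a : ℝ) : Set (G → ℝ) :=
  {V | δ ≤ (RR T V (zz ε a) (del 0) 0).im ∧ ‖RR T V (zz ε a) (del 0) 0‖ ≤ K ∧ |V 0| ≤ L}

theorem ofReal_mul_enorm_sq {F : Type*} [NormedAddCommGroup F] {ε : ℝ} (hε : 0 ≤ ε) (u : F) :
    ENNReal.ofReal ε * ‖u‖ₑ ^ 2 = ENNReal.ofReal (ε * ‖u‖ ^ 2) := by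
  rw [enorm_sq_ofReal, ← ENNReal.ofReal_mul hε]

/-- abstract averaging over the value of the potential at the origin -/
theorem avg_lemma {G : Type*} [AddCommGroup G] [DecidableEq G] (ν : Measure ℝ)
    [IsProbabilityMeasure ν] {F P1 P2 : (G → ℝ) → ℝ≥0∞} (hF : Measurable F) (hP1 : Measurable P1)
    (hP2 : Measurable P2) {L r : ℝ}
    (hν : ∀ v', (4 : ℝ≥0∞)⁻¹ ≤ ν {v | |v| ≤ L ∧ r ≤ |v' - v|})
    (hpt : ∀ (V : G → ℝ) (v v' : ℝ), |v| ≤ L → r ≤ |v' - v| →
      F (Function.update V 0 v') ≤ P1 (Function.update V 0 v') + P2 (Function.update V 0 v)) :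
    ∫⁻ V, F V ∂(PP G ν) ≤ 4 * (∫⁻ V, P1 V ∂(PP G ν) + ∫⁻ V, P2 V ∂(PP G ν)) := by
  have hpt2 : ∀ (V : G → ℝ) (v' : ℝ), F (Function.update V 0 v') ≤
        4 * (P1 (Function.update V 0 v') + ∫⁻ v, P2 (Function.update V 0 v) ∂ν) := by
    intro V v'
    set X := F (Function.update V 0 v') with hX
    set S : Set ℝ := {v | |v| ≤ L ∧ r ≤ |v' - v|} with hS
    have h1 : (4 : ℝ≥0∞)⁻¹ * X ≤ ν S * X := by gcongr; exact hν v'
    have h2 : ν S * X = ∫⁻ _ in S, X ∂ν := by rw [setLIntegral_const, mul_comm]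
    have h3 : ∫⁻ _ in S, X ∂ν ≤ ∫⁻ v in S, (P1 (Function.update V 0 v') +
        P2 (Function.update V 0 v)) ∂ν := by
      have hSm : MeasurableSet S := by
        have c1 : Continuous fun v : ℝ => |v| := by fun_prop
        have c2 : Continuous fun v : ℝ => |v' - v| := by fun_prop
        exact (measurableSet_le c1.measurable measurable_const).inter
          (measurableSet_le measurable_const c2.measurable)
      exact setLIntegral_mono' hSm fun v hv => hpt V v v' hv.1 hv.2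
    have h4 : ∫⁻ v in S, (P1 (Function.update V 0 v') +
        P2 (Function.update V 0 v)) ∂ν ≤ P1 (Function.update V 0 v') +
          ∫⁻ v, P2 (Function.update V 0 v) ∂ν := by
      refine (setLIntegral_le_lintegral _ _).trans ?_
      rw [lintegral_add_left measurable_const, lintegral_const, measure_univ, mul_one]
    calc X = 4 * ((4 : ℝ≥0∞)⁻¹ * X) := by
          rw [← mul_assoc, ENNReal.mul_inv_cancel (by norm_num) (by norm_num), one_mul]
      _ ≤ 4 * (P1 (Function.update V 0 v') + ∫⁻ v, P2 (Function.update V 0 v) ∂ν) := by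
          gcongr
          exact h1.trans (h2.le.trans (h3.trans h4))
  rw [← lintegral_resample ν (0 : G) hF]
  calc ∫⁻ V, ∫⁻ v', F (Function.update V 0 v') ∂ν ∂(PP G ν)
      ≤ ∫⁻ V, ∫⁻ v', 4 * (P1 (Function.update V 0 v') +
          ∫⁻ v, P2 (Function.update V 0 v) ∂ν) ∂ν ∂(PP G ν) :=
        lintegral_mono fun V => lintegral_mono fun v' => hpt2 V v'
    _ = ∫⁻ V, 4 * (∫⁻ v', P1 (Function.update V 0 v') ∂ν +
          ∫⁻ v, P2 (Function.update V 0 v) ∂ν) ∂(PP G ν) := by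
        refine lintegral_congr fun V => ?_
        rw [lintegral_const_mul' _ _ (by norm_num), lintegral_add_right _ measurable_const,
          lintegral_const, measure_univ, mul_one]
    _ = 4 * (∫⁻ V, ∫⁻ v', P1 (Function.update V 0 v') ∂ν ∂(PP G ν) +
          ∫⁻ V, ∫⁻ v, P2 (Function.update V 0 v) ∂ν ∂(PP G ν)) := by
        rw [lintegral_const_mul' _ _ (by norm_num), lintegral_add_left]
        have h5 : Measurable (fun p : (G → ℝ) × ℝ => P1 (Function.update p.1 0 p.2)) :=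
          hP1.comp measurable_update'
        exact h5.lintegral_prod_right'
    _ = 4 * (∫⁻ V, P1 V ∂(PP G ν) + ∫⁻ V, P2 V ∂(PP G ν)) := by
        rw [lintegral_resample ν (0 : G) hP1, lintegral_resample ν (0 : G) hP2]

/-- constant -/
def c0 (r L δ K : ℝ) : ℝ := 6 / (4 * r ^ 2 * (δ / (1 + 2 * L * K) ^ 2) ^ 2)

theorem c0_nonneg (r L δ K : ℝ) : 0 ≤ c0 r L δ K := by unfold c0; positivity

include hT

section meas
variable {ε : ℝ} (hε : 0 < ε)
include hε

theorem sm_RR_V (a : ℝ) (f : E G) :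
    StronglyMeasurable (fun V : G → ℝ => RR T V (zz ε a) f) := by
  have h1 : Measurable (fun V : G → ℝ => ((V, a) : (G → ℝ) × ℝ)) := by fun_prop
  have h2 := (sm_RR hT hε f).comp_measurable h1
  exact h2

theorem sm_RC (f : E G) :
    StronglyMeasurable (fun p : (G → ℝ) × ℝ => RC T p.1 (zz ε p.2) f) := by
  unfold RC
  exact continuous_star_E.comp_stronglyMeasurable (sm_RR hT hε (star f))

theorem sm_RR_apply {u : (G → ℝ) × ℝ → E G} (hu : StronglyMeasurable u) :
    StronglyMeasurable (fun p : (G → ℝ) × ℝ => RR T p.1 (zz ε p.2) (u p)) := by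
  have h := (PK.RL hT hε).meas_apply hu
  exact h

theorem meas_mm {A : (G → ℝ) → (E G →L[ℂ] E G)} (hA : Cov A) :
    Measurable (fun p : (G → ℝ) × ℝ => mm T ε A p.1 p.2) := by
  unfold mm
  refine (measurable_enorm_sq ?_).const_mul _
  exact sm_RR_apply hT hε ((hA.meas (del 0)).comp_measurable measurable_fst)

theorem meas_nn {D : (G → ℝ) → (E G →L[ℂ] E G)} (hD : Cov D) :
    Measurable (fun p : (G → ℝ) × ℝ => nn T ε D p.1 p.2) := by
  unfold nn
  refine (measurable_enorm_sq ?_).const_mul _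
  exact sm_apply (D := fun p : (G → ℝ) × ℝ => D p.1)
        (fun y => (hD.meas (del y)).comp_measurable measurable_fst) (sm_RR hT hε (del 0))

theorem meas_nc {D : (G → ℝ) → (E G →L[ℂ] E G)} (hD : Cov D) :
    Measurable (fun p : (G → ℝ) × ℝ => nc T ε D p.1 p.2) := by
  unfold nc
  refine (measurable_enorm_sq ?_).const_mul _
  exact sm_apply (D := fun p : (G → ℝ) × ℝ => D p.1)
        (fun y => (hD.meas (del y)).comp_measurable measurable_fst) (sm_RC hT hε (del 0))

theorem meas_gg (x y : G) :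
    Measurable (fun p : (G → ℝ) × ℝ => RR T p.1 (zz ε p.2) (del x) y) :=
  measurable_coord (sm_RR hT hε (del x)) y

theorem meas_qq (y : G) : Measurable (fun p : (G → ℝ) × ℝ => qq T ε y p.1 p.2) := by
  unfold qq
  exact ((meas_gg hT hε 0 y).enorm).const_mul _

theorem meas_good (δ K L : ℝ) :
    MeasurableSet {p : (G → ℝ) × ℝ | p.1 ∈ good T ε δ K L p.2} := by
  unfold good
  have h1 := meas_gg hT hε (0 : G) 0
  have h2 : Measurable (fun p : (G → ℝ) × ℝ => |p.1 0|) := by fun_prop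
  exact (measurableSet_le measurable_const (Complex.measurable_im.comp h1)).inter
    ((measurableSet_le h1.norm measurable_const).inter (measurableSet_le h2 measurable_const))

end meas

variable {ε : ℝ} (hε : 0 < ε)

include hε

theorem pointwise_ennreal {A B : (G → ℝ) → (E G →L[ℂ] E G)} {F : Finset G} {CB C : ℝ}
    (hA : ∀ V t f, A V (UU T V t f) = UU T V t (A V f)) (ha : ∀ V, tr (A V) = -A V)
    (hC : ∀ V, ‖A V‖ ≤ C) (hB : Loc B F CB) {V : G → ℝ} {v v' r L δ K : ℝ} {a : ℝ}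
    (hr : 0 < r) (hL : 0 < L) (hδ : 0 < δ) (hK0 : 0 ≤ K)
    (hv : |v| ≤ L) (hvv : r ≤ |v' - v|)
    (hg : Function.update V 0 v' ∈ good T ε δ K L a) :
    mm T ε A (Function.update V 0 v') a ≤
      ENNReal.ofReal (c0 r L δ K * (1 / (r * δ)) ^ 2) *
        (nn T ε (fun V => A V - B V) (Function.update V 0 v') a +
          nc T ε (fun V => A V - B V) (Function.update V 0 v') a) +
      (ENNReal.ofReal (c0 r L δ K) *
        (nn T ε (fun V => A V - B V) (Function.update V 0 v) a +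
          nc T ε (fun V => A V - B V) (Function.update V 0 v) a) +
      ENNReal.ofReal (Real.sqrt (C ^ 2 * K) * (Real.sqrt (2 * c0 r L δ K) * CB)) *
          ∑ y ∈ F, qq T ε y (Function.update V 0 v) a) := by
  obtain ⟨hg1, hg2, hg3⟩ := hg
  rw [Function.update_self] at hg3
  have h := pointwise hT hA ha hC hB (zpos hε a) hr hL hδ hK0 hv hg3 hvv hg1 hg2
  rw [zz_im] at h
  unfold mm nn nc qq
  have hCB := hB.nonneg
  have hc := c0_nonneg r L δ K
  have e1 : ∀ y, ENNReal.ofReal (Real.sqrt ε) * ‖RR T (Function.update V 0 v) (zz ε a) (del 0) y‖ₑ =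
      ENNReal.ofReal (Real.sqrt ε * ‖RR T (Function.update V 0 v) (zz ε a) (del 0) y‖) := by
    intro y
    rw [← ofReal_norm, ← ENNReal.ofReal_mul (Real.sqrt_nonneg _)]
  simp_rw [e1, ofReal_mul_enorm_sq hε.le]
  rw [← ENNReal.ofReal_sum_of_nonneg (fun _ _ => by positivity),
    ← ENNReal.ofReal_add (by positivity) (by positivity),
    ← ENNReal.ofReal_add (by positivity) (by positivity),
    ← ENNReal.ofReal_mul (by positivity), ← ENNReal.ofReal_mul (by positivity),
    ← ENNReal.ofReal_mul (by positivity),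
    ← ENNReal.ofReal_add (by positivity) (mul_nonneg (by positivity)
      (Finset.sum_nonneg fun _ _ => by positivity)),
    ← ENNReal.ofReal_add (by positivity) (add_nonneg (by positivity) (mul_nonneg (by positivity)
      (Finset.sum_nonneg fun _ _ => by positivity)))]
  apply ENNReal.ofReal_le_ofReal
  refine h.trans (le_of_eq ?_)
  unfold c0
  ring

variable (ν : Measure ℝ) [IsProbabilityMeasure ν]

/-- The estimate at a fixed energy, averaged over the potential. -/
theorem core_fixed {A B : (G → ℝ) → (E G →L[ℂ] E G)} {F : Finset G} {CB C : ℝ}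
    (hcA : Cov A) (hcB : Cov B)
    (hA : ∀ V t f, A V (UU T V t f) = UU T V t (A V f)) (ha : ∀ V, tr (A V) = -A V)
    (hC : ∀ V, ‖A V‖ ≤ C) (hB : Loc B F CB) {r L δ K : ℝ} {a : ℝ}
    (hr : 0 < r) (hL : 0 < L) (hδ : 0 < δ) (hK0 : 0 ≤ K)
    (hν : ∀ v', (4 : ℝ≥0∞)⁻¹ ≤ ν {v | |v| ≤ L ∧ r ≤ |v' - v|}) :
    ∫⁻ V, (good T ε δ K L a).indicator (fun V => mm T ε A V a) V ∂(PP G ν) ≤
      4 * (ENNReal.ofReal (c0 r L δ K * (1 / (r * δ)) ^ 2) *
          ∫⁻ V, (nn T ε (fun V => A V - B V) V a + nc T ε (fun V => A V - B V) V a) ∂(PP G ν) +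
        (ENNReal.ofReal (c0 r L δ K) *
          ∫⁻ V, (nn T ε (fun V => A V - B V) V a + nc T ε (fun V => A V - B V) V a) ∂(PP G ν) +
        ENNReal.ofReal (Real.sqrt (C ^ 2 * K) * (Real.sqrt (2 * c0 r L δ K) * CB)) *
          ∑ y ∈ F, ∫⁻ V, qq T ε y V a ∂(PP G ν))) := by
  have hma : Measurable (fun V : G → ℝ => ((V, a) : (G → ℝ) × ℝ)) := by fun_prop
  have hcD : Cov (fun V => A V - B V) := hcA.sub hcB
  have hmm0 := Measurable.comp (meas_mm hT hε hcA) hma
  have hmm : Measurable (fun V => mm T ε A V a) := by exact hmm0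
  have hgood0 := hma (meas_good hT hε δ K L)
  have hgood : MeasurableSet (good T ε δ K L a) := by exact hgood0
  have hF : Measurable ((good T ε δ K L a).indicator (fun V => mm T ε A V a)) :=
    hmm.indicator hgood
  have hnn0 := Measurable.comp (meas_nn hT hε hcD) hma
  have hnc0 := Measurable.comp (meas_nc hT hε hcD) hma
  have hnn1 := Measurable.add hnn0 hnc0
  have hnn : Measurable (fun V => nn T ε (fun V => A V - B V) V a +
      nc T ε (fun V => A V - B V) V a) := by exact hnn1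
  have hqq : ∀ y, Measurable (fun V => qq T ε y V a) := by
    intro y
    have h := Measurable.comp (meas_qq hT hε y) hma
    exact h
  have hsum : Measurable (fun V => ∑ y ∈ F, qq T ε y V a) :=
    Finset.measurable_fun_sum F fun y _ => hqq y
  have h := avg_lemma ν (F := (good T ε δ K L a).indicator (fun V => mm T ε A V a))
    (P1 := fun V => ENNReal.ofReal (c0 r L δ K * (1 / (r * δ)) ^ 2) *
      (nn T ε (fun V => A V - B V) V a + nc T ε (fun V => A V - B V) V a))
    (P2 := fun V => ENNReal.ofReal (c0 r L δ K) *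
      (nn T ε (fun V => A V - B V) V a + nc T ε (fun V => A V - B V) V a) +
      ENNReal.ofReal (Real.sqrt (C ^ 2 * K) * (Real.sqrt (2 * c0 r L δ K) * CB)) *
        ∑ y ∈ F, qq T ε y V a) hF
    (hnn.const_mul _) ((hnn.const_mul _).add (hsum.const_mul _))
    hν (by
      intro V v v' hv hvv
      by_cases hmem : Function.update V 0 v' ∈ good T ε δ K L a
      · rw [indicator_of_mem hmem]
        exact pointwise_ennreal hT hε hA ha hC hB hr hL hδ hK0 hv hvv hmem
      · rw [indicator_of_notMem hmem]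
        exact zero_le)
  have e1 : ∫⁻ V, (ENNReal.ofReal (c0 r L δ K * (1 / (r * δ)) ^ 2) *
      (nn T ε (fun V => A V - B V) V a + nc T ε (fun V => A V - B V) V a)) ∂(PP G ν) =
      ENNReal.ofReal (c0 r L δ K * (1 / (r * δ)) ^ 2) *
      ∫⁻ V, (nn T ε (fun V => A V - B V) V a + nc T ε (fun V => A V - B V) V a) ∂(PP G ν) :=
    lintegral_const_mul' _ _ ENNReal.ofReal_ne_top
  have e2 : ∫⁻ V, (ENNReal.ofReal (c0 r L δ K) *
      (nn T ε (fun V => A V - B V) V a + nc T ε (fun V => A V - B V) V a) +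
      ENNReal.ofReal (Real.sqrt (C ^ 2 * K) * (Real.sqrt (2 * c0 r L δ K) * CB)) *
        ∑ y ∈ F, qq T ε y V a) ∂(PP G ν) = ENNReal.ofReal (c0 r L δ K) *
      ∫⁻ V, (nn T ε (fun V => A V - B V) V a + nc T ε (fun V => A V - B V) V a) ∂(PP G ν) +
      ENNReal.ofReal (Real.sqrt (C ^ 2 * K) * (Real.sqrt (2 * c0 r L δ K) * CB)) *
        ∑ y ∈ F, ∫⁻ V, qq T ε y V a ∂(PP G ν) := by
    rw [lintegral_add_left (hnn.const_mul (ENNReal.ofReal (c0 r L δ K))),
      lintegral_const_mul' _ _ ENNReal.ofReal_ne_top,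
      lintegral_const_mul' _ _ ENNReal.ofReal_ne_top,
      lintegral_finsetSum F (fun y _ => hqq y)]
  rw [e1, e2] at h
  exact h

end Pool.Agent.NoBal
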