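import Pool.Agent.Helper39_NoBal.Core3

/-!
# The averaged estimate at good energies, integrated over a compact energy window
-/

set_option autoImplicit false
set_option linter.unusedSectionVars false

open scoped ENNReal InnerProductSpace ComplexConjugate Topology Interval
open Filter MeasureTheory Set

noncomputable section

namespace Pool.Agent.NoBal

variable {G : Type*} [AddCommGroup G] [Countable G] [DecidableEq G]
  {T : E G →L[ℂ] E G} (hT : Hop T)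

attribute [local irreducible] RR UU

include hT

theorem coord_RR_le (V : G → ℝ) {z : ℂ} (hz : 0 < z.im) (w : E G) (y : G) :
    ‖RR T V z w y‖ ≤ ‖RR T V z (del y)‖ * ‖w‖ := by
  have h1 := inner_RC hT V hz (del y) w
  rw [inner_del_left] at h1
  rw [← h1, ← norm_RC hT V hz]
  exact norm_inner_le_norm _ _

theorem qq_real (V : G → ℝ) {b : ℝ} (hb : 0 < b) (hb1 : b ≤ 1) (y : G) (a : ℝ) :
    Real.sqrt (b ^ 4) * ‖RR T V (zz (b ^ 4) a) (del 0) y‖ ≤
      b / 2 * (1 + (2 * (b ^ 2 * ‖RR T V (zz (b ^ 2) a) (del 0)‖ ^ 2) +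
        b ^ 4 * ‖RR T V (zz (b ^ 4) a) (del y)‖ ^ 2)) := by
  have hb4 : 0 < b ^ 4 := by positivity
  have hb2 : 0 < b ^ 2 := by positivity
  have hz := zpos hb4 a
  have hz1 := zpos hb2 a
  have h1 := RR_RR hT V hz hz1 (del 0)
  have h2 : RR T V (zz (b ^ 4) a) (del 0) y = RR T V (zz (b ^ 2) a) (del 0) y -
      (zz (b ^ 2) a - zz (b ^ 4) a) * RR T V (zz (b ^ 4) a) (RR T V (zz (b ^ 2) a) (del 0)) y := by
    have h3 := congrArg (fun u : E G => u y) h1
    simp only [coe_add, coe_smul] at h3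
    linear_combination -h3
  have h4 : ‖zz (b ^ 2) a - zz (b ^ 4) a‖ ≤ b ^ 2 := by
    have h5 : zz (b ^ 2) a - zz (b ^ 4) a = ((b ^ 2 - b ^ 4 : ℝ) : ℂ) * Complex.I := by
      unfold zz; push_cast; ring
    rw [h5, norm_mul, Complex.norm_I, mul_one, Complex.norm_real, Real.norm_eq_abs, abs_le]
    constructor <;> nlinarith [pow_le_one₀ hb.le hb1 (n := 2)]
  set X := ‖RR T V (zz (b ^ 2) a) (del 0)‖
  set Y := ‖RR T V (zz (b ^ 4) a) (del y)‖
  have hX : 0 ≤ X := norm_nonneg _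
  have hY : 0 ≤ Y := norm_nonneg _
  have h6 : ‖RR T V (zz (b ^ 4) a) (del 0) y‖ ≤ X + b ^ 2 * (Y * X) := by
    rw [h2]
    refine (norm_sub_le _ _).trans (add_le_add (norm_coord_le _ _) ?_)
    rw [norm_mul]
    exact mul_le_mul h4 (coord_RR_le hT V hz _ y) (norm_nonneg _) hb2.le
  have h7 : Real.sqrt (b ^ 4) = b ^ 2 := by
    rw [show b ^ 4 = (b ^ 2) ^ 2 by ring]
    exact Real.sqrt_sq hb2.le
  rw [h7]
  have h8 : b ^ 2 * ‖RR T V (zz (b ^ 4) a) (del 0) y‖ ≤ b ^ 2 * (X + b ^ 2 * (Y * X)) := by gcongr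
  refine h8.trans ?_
  have h9 : b * (b * X) ≤ b * ((1 + b ^ 2 * X ^ 2) / 2) := by
    have : b * X ≤ (1 + b ^ 2 * X ^ 2) / 2 := by nlinarith [sq_nonneg (1 - b * X)]
    gcongr
  have h10 : b ^ 3 * (b * Y * X) ≤ b ^ 3 * ((b ^ 2 * Y ^ 2 + X ^ 2) / 2) := by
    have : b * Y * X ≤ (b ^ 2 * Y ^ 2 + X ^ 2) / 2 := by nlinarith [sq_nonneg (b * Y - X)]
    gcongr
  nlinarith

theorem qq_le (V : G → ℝ) {b : ℝ} (hb : 0 < b) (hb1 : b ≤ 1) (y : G) (a : ℝ) :
    qq T (b ^ 4) y V a ≤ ENNReal.ofReal (b / 2) * (1 +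
      (2 * (ENNReal.ofReal (b ^ 2) * ‖RR T V (zz (b ^ 2) a) (del 0)‖ₑ ^ 2) +
        ENNReal.ofReal (b ^ 4) * ‖RR T V (zz (b ^ 4) a) (del y)‖ₑ ^ 2)) := by
  have h := qq_real hT V hb hb1 y a
  unfold qq
  rw [← ofReal_norm, ← ENNReal.ofReal_mul (Real.sqrt_nonneg _)]
  refine (ENNReal.ofReal_le_ofReal h).trans (le_of_eq ?_)
  rw [ofReal_mul_enorm_sq (by positivity), ofReal_mul_enorm_sq (by positivity)]
  have e2 : ∀ x : ℝ, (2 : ℝ≥0∞) * ENNReal.ofReal x = ENNReal.ofReal (2 * x) := by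
    intro x
    rw [ENNReal.ofReal_mul (by norm_num)]; norm_num
  rw [e2, ← ENNReal.ofReal_add (by positivity) (by positivity),
    ← ENNReal.ofReal_one, ← ENNReal.ofReal_add (by norm_num) (by positivity),
    ← ENNReal.ofReal_mul (by positivity)]

theorem qq_int (V : G → ℝ) {b : ℝ} (hb : 0 < b) (hb1 : b ≤ 1) (y : G) (R : ℝ) :
    ∫⁻ a in Icc (-R) R, qq T (b ^ 4) y V a ≤
      ENNReal.ofReal (b / 2) * (ENNReal.ofReal (2 * R) + 3 * ENNReal.ofReal Real.pi) := by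
  have hb4 : 0 < b ^ 4 := by positivity
  have hb2 : 0 < b ^ 2 := by positivity
  have hm1 : Measurable fun a : ℝ =>
      ENNReal.ofReal (b ^ 2) * ‖RR T V (zz (b ^ 2) a) (del 0)‖ₑ ^ 2 :=
    (((continuous_RR_t hT V hb2 (del 0)).enorm.measurable).pow_const 2).const_mul _
  have hm2 : Measurable fun a : ℝ =>
      ENNReal.ofReal (b ^ 4) * ‖RR T V (zz (b ^ 4) a) (del y)‖ₑ ^ 2 :=
    (((continuous_RR_t hT V hb4 (del y)).enorm.measurable).pow_const 2).const_mul _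
  refine (lintegral_mono fun a => qq_le hT V hb hb1 y a).trans ?_
  rw [lintegral_const_mul' _ _ ENNReal.ofReal_ne_top]
  gcongr
  rw [lintegral_add_left measurable_const, lintegral_add_left (hm1.const_mul 2),
    lintegral_const_mul' _ _ (by norm_num), setLIntegral_const, Real.volume_Icc, one_mul]
  have h1 : ∫⁻ a in Icc (-R) R, ENNReal.ofReal (b ^ 2) * ‖RR T V (zz (b ^ 2) a) (del 0)‖ₑ ^ 2 ≤
      ENNReal.ofReal Real.pi := by
    refine (setLIntegral_le_lintegral _ _).trans ?_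
    rw [planch hT V hb2, ← ofReal_norm, norm_del]
    simp
  have h2 : ∫⁻ a in Icc (-R) R, ENNReal.ofReal (b ^ 4) * ‖RR T V (zz (b ^ 4) a) (del y)‖ₑ ^ 2 ≤
      ENNReal.ofReal Real.pi := by
    refine (setLIntegral_le_lintegral _ _).trans ?_
    rw [planch hT V hb4, ← ofReal_norm, norm_del]
    simp
  have e : R - -R = 2 * R := by ring
  rw [e]
  calc _ ≤ ENNReal.ofReal (2 * R) + (2 * ENNReal.ofReal Real.pi + ENNReal.ofReal Real.pi) := by
        gcongr
    _ = _ := by ring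

variable (ν : Measure ℝ) [IsProbabilityMeasure ν]

theorem nn_int {ε : ℝ} (hε : 0 < ε) {D : (G → ℝ) → (E G →L[ℂ] E G)} (hD : Cov D) :
    ∫⁻ a : ℝ, (∫⁻ V, nn T ε D V a ∂(PP G ν)) =
      ENNReal.ofReal Real.pi * ∫⁻ V, ‖D V (del 0)‖ₑ ^ 2 ∂(PP G ν) := by
  have h := (PK.RL hT hε).trace ν hD
  have hm := meas_nn hT hε hD
  rw [← lintegral_lintegral_swap (f := fun V a => nn T ε D V a) hm.aemeasurable]
  exact h

theorem nc_int {ε : ℝ} (hε : 0 < ε) {D : (G → ℝ) → (E G →L[ℂ] E G)} (hD : Cov D) :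
    ∫⁻ a : ℝ, (∫⁻ V, nc T ε D V a ∂(PP G ν)) =
      ENNReal.ofReal Real.pi * ∫⁻ V, ‖D V (del 0)‖ₑ ^ 2 ∂(PP G ν) := by
  have h := (PK.RCL hT hε).trace ν hD
  have hm := meas_nc hT hε hD
  rw [← lintegral_lintegral_swap (f := fun V a => nc T ε D V a) hm.aemeasurable]
  simp only [RCL_apply] at h
  exact h

/-- `A` is approximated by local families -/
def Approx (ν : Measure ℝ) [IsProbabilityMeasure ν] (A : (G → ℝ) → (E G →L[ℂ] E G)) : Prop :=
  ∀ κ : ℝ, 0 < κ → ∃ (B : (G → ℝ) → (E G →L[ℂ] E G)) (F : Finset G) (CB : ℝ),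
    Cov B ∧ Loc B F CB ∧ ∫⁻ V, ‖(A V - B V) (del 0)‖ₑ ^ 2 ∂(PP G ν) ≤ ENNReal.ofReal κ

theorem core_window {A : (G → ℝ) → (E G →L[ℂ] E G)} {C : ℝ}
    (hcA : Cov A) (hA : ∀ V t f, A V (UU T V t f) = UU T V t (A V f)) (ha : ∀ V, tr (A V) = -A V)
    (hC : ∀ V, ‖A V‖ ≤ C) (hAp : Approx ν A) {r L δ K R : ℝ}
    (hr : 0 < r) (hL : 0 < L) (hδ : 0 < δ) (hK0 : 0 ≤ K) (hR : 0 ≤ R)
    (hν : ∀ v', (4 : ℝ≥0∞)⁻¹ ≤ ν {v | |v| ≤ L ∧ r ≤ |v' - v|}) {θ : ℝ} (hθ : 0 < θ) :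
    ∃ b₀ : ℝ, 0 < b₀ ∧ b₀ ≤ 1 ∧ ∀ b : ℝ, 0 < b → b ≤ b₀ →
      ∫⁻ a in Icc (-R) R, (∫⁻ V, (good T (b ^ 4) δ K L a).indicator
        (fun V => mm T (b ^ 4) A V a) V ∂(PP G ν)) ≤ ENNReal.ofReal θ := by
  set x1 : ℝ := c0 r L δ K * (1 / (r * δ)) ^ 2 with hx1
  set x2 : ℝ := c0 r L δ K with hx2
  have hx1' : 0 ≤ x1 := mul_nonneg (c0_nonneg _ _ _ _) (by positivity)
  have hx2' : 0 ≤ x2 := c0_nonneg _ _ _ _
  have hpi := Real.pi_pos
  set M1 : ℝ := 4 * (x1 + x2) * (2 * Real.pi) with hM1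
  have hM1' : 0 ≤ M1 := by positivity
  set κ : ℝ := θ / (2 * (M1 + 1)) with hκ
  have hκ' : 0 < κ := by positivity
  obtain ⟨B, F, CB, hcB, hB, hBA⟩ := hAp κ hκ'
  have hCB := hB.nonneg
  set x3 : ℝ := Real.sqrt (C ^ 2 * K) * (Real.sqrt (2 * c0 r L δ K) * CB) with hx3
  have hx3' : 0 ≤ x3 := by positivity
  set M2 : ℝ := 4 * x3 * (F.card * (1 / 2 * (2 * R + 3 * Real.pi))) with hM2
  have hM2' : 0 ≤ M2 := by positivity
  refine ⟨min 1 (θ / (2 * (M2 + 1))), by positivity, min_le_left _ _, fun b hb hbb => ?_⟩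
  have hb1 : b ≤ 1 := hbb.trans (min_le_left _ _)
  have hb2 : b ≤ θ / (2 * (M2 + 1)) := hbb.trans (min_le_right _ _)
  have hε : 0 < b ^ 4 := by positivity
  have hcD : Cov (fun V => A V - B V) := hcA.sub hcB
  have h1 : ∀ a, ∫⁻ V, (good T (b ^ 4) δ K L a).indicator
        (fun V => mm T (b ^ 4) A V a) V ∂(PP G ν) ≤ _ := fun a =>
    core_fixed hT hε ν hcA hcB hA ha hC hB (a := a) hr hL hδ hK0 hν
  have hD : ∫⁻ a in Icc (-R) R, (∫⁻ V, (nn T (b ^ 4) (fun V => A V - B V) V a +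
      nc T (b ^ 4) (fun V => A V - B V) V a) ∂(PP G ν)) ≤
      ENNReal.ofReal (2 * Real.pi * κ) := by
    refine (setLIntegral_le_lintegral _ _).trans ?_
    have hma : ∀ a : ℝ, Measurable (fun V : G → ℝ => ((V, a) : (G → ℝ) × ℝ)) := by
      intro a; fun_prop
    have h2 : ∀ a : ℝ, ∫⁻ V, (nn T (b ^ 4) (fun V => A V - B V) V a +
        nc T (b ^ 4) (fun V => A V - B V) V a) ∂(PP G ν) =
        ∫⁻ V, nn T (b ^ 4) (fun V => A V - B V) V a ∂(PP G ν) +
        ∫⁻ V, nc T (b ^ 4) (fun V => A V - B V) V a ∂(PP G ν) := by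
      intro a
      have h3 := Measurable.comp (meas_nn hT hε hcD) (hma a)
      have h4 : Measurable (fun V => nn T (b ^ 4) (fun V => A V - B V) V a) := by exact h3
      rw [lintegral_add_left h4]
    simp_rw [h2]
    have h5 : Measurable (fun a : ℝ => ∫⁻ V, nn T (b ^ 4) (fun V => A V - B V) V a ∂(PP G ν)) := by
      have := (meas_nn hT hε hcD).lintegral_prod_left' (μ := PP G ν)
      exact this
    rw [lintegral_add_left h5, nn_int hT ν hε hcD, nc_int hT ν hε hcD, ← two_mul, ← mul_assoc]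
    calc 2 * ENNReal.ofReal Real.pi * ∫⁻ V, ‖(A V - B V) (del 0)‖ₑ ^ 2 ∂(PP G ν)
        ≤ 2 * ENNReal.ofReal Real.pi * ENNReal.ofReal κ := by gcongr
      _ = ENNReal.ofReal (2 * Real.pi * κ) := by
        rw [ENNReal.ofReal_mul (by positivity), ENNReal.ofReal_mul (by norm_num)]
        norm_num
  have hmqq : ∀ y, Measurable (fun a : ℝ => ∫⁻ V, qq T (b ^ 4) y V a ∂(PP G ν)) := by
    intro y
    have := (meas_qq hT hε y).lintegral_prod_left' (μ := PP G ν)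
    exact this
  have hQ : ∑ y ∈ F, ∫⁻ a in Icc (-R) R, (∫⁻ V, qq T (b ^ 4) y V a ∂(PP G ν)) ≤
      ENNReal.ofReal (F.card * (b / 2 * (2 * R + 3 * Real.pi))) := by
    have h6 : ∀ y ∈ F, ∫⁻ a in Icc (-R) R, (∫⁻ V, qq T (b ^ 4) y V a ∂(PP G ν)) ≤
        ENNReal.ofReal (b / 2 * (2 * R + 3 * Real.pi)) := by
      intro y _
      have h7 := (meas_qq hT hε y)
      rw [← lintegral_lintegral_swap (f := fun V a => qq T (b ^ 4) y V a) h7.aemeasurable]
      calc ∫⁻ V, (∫⁻ a in Icc (-R) R, qq T (b ^ 4) y V a) ∂(PP G ν)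
          ≤ ∫⁻ V, ENNReal.ofReal (b / 2) * (ENNReal.ofReal (2 * R) + 3 * ENNReal.ofReal Real.pi)
            ∂(PP G ν) := lintegral_mono fun V => qq_int hT V hb hb1 y R
        _ = _ := by
          have e3 : (3 : ℝ≥0∞) * ENNReal.ofReal Real.pi = ENNReal.ofReal (3 * Real.pi) := by
            rw [ENNReal.ofReal_mul (p := 3) (by norm_num)]; norm_num
          rw [lintegral_const, measure_univ, mul_one, e3,
            ← ENNReal.ofReal_add (by positivity) (by positivity),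
            ← ENNReal.ofReal_mul (by positivity)]
    calc _ ≤ ∑ _y ∈ F, ENNReal.ofReal (b / 2 * (2 * R + 3 * Real.pi)) := Finset.sum_le_sum h6
      _ = _ := by
        rw [Finset.sum_const, nsmul_eq_mul, ← ENNReal.ofReal_natCast F.card,
          ← ENNReal.ofReal_mul (by positivity)]
  refine (lintegral_mono fun a => h1 a).trans ?_
  have hmD : Measurable (fun a : ℝ => ∫⁻ V, (nn T (b ^ 4) (fun V => A V - B V) V a +
      nc T (b ^ 4) (fun V => A V - B V) V a) ∂(PP G ν)) := by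
    have := ((meas_nn hT hε hcD).add (meas_nc hT hε hcD)).lintegral_prod_left' (μ := PP G ν)
    exact this
  rw [lintegral_const_mul' _ _ (by norm_num), lintegral_add_left (hmD.const_mul _),
    lintegral_add_left (hmD.const_mul _), lintegral_const_mul' _ _ ENNReal.ofReal_ne_top,
    lintegral_const_mul' _ _ ENNReal.ofReal_ne_top, lintegral_const_mul' _ _ ENNReal.ofReal_ne_top,
    lintegral_finsetSum F (fun y _ => hmqq y)]
  calc _ ≤ 4 * (ENNReal.ofReal x1 * ENNReal.ofReal (2 * Real.pi * κ) +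
        (ENNReal.ofReal x2 * ENNReal.ofReal (2 * Real.pi * κ) +
          ENNReal.ofReal x3 * ENNReal.ofReal (F.card * (b / 2 * (2 * R + 3 * Real.pi))))) := by
        gcongr
    _ = ENNReal.ofReal (M1 * κ + M2 * b) := by
        have e4 : ∀ x : ℝ, (4 : ℝ≥0∞) * ENNReal.ofReal x = ENNReal.ofReal (4 * x) := by
          intro x
          rw [ENNReal.ofReal_mul (by norm_num)]; norm_num
        rw [← ENNReal.ofReal_mul hx1', ← ENNReal.ofReal_mul hx2', ← ENNReal.ofReal_mul hx3',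
          ← ENNReal.ofReal_add (by positivity) (by positivity),
          ← ENNReal.ofReal_add (by positivity) (by positivity), e4]
        congr 1
        rw [hM1, hM2]
        ring
    _ ≤ ENNReal.ofReal θ := by
        apply ENNReal.ofReal_le_ofReal
        have h8 : M1 * κ ≤ θ / 2 := by
          rw [hκ, ← mul_div_assoc, div_le_div_iff₀ (by positivity) (by norm_num)]
          nlinarith
        have h9 : M2 * b ≤ θ / 2 := by
          calc M2 * b ≤ M2 * (θ / (2 * (M2 + 1))) := by gcongr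
            _ ≤ θ / 2 := by
              rw [← mul_div_assoc, div_le_div_iff₀ (by positivity) (by norm_num)]
              nlinarith
        linarith

end Pool.Agent.NoBal
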