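import Pool.Agent.Helper39_NoBal.Prob

/-!
# Covariance of the resolvent and the unitary group; the trace-Plancherel identity
-/

set_option autoImplicit false

open scoped ENNReal InnerProductSpace ComplexConjugate Topology Interval
open Filter MeasureTheory Set

noncomputable section

namespace Pool.Agent.NoBal

set_option linter.unusedSectionVars false

variable {G : Type*} [AddCommGroup G] [Countable G] [DecidableEq G]
  {T : E G →L[ℂ] E G} (hT : Hop T)

theorem adjoint_RL (V : G → ℝ) {z : ℂ} (hz : 0 < z.im) (f : E G) :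
    ContinuousLinearMap.adjoint (RL hT V hz) f = RC T V z f := by
  refine ext_inner_right ℂ fun g => ?_
  rw [ContinuousLinearMap.adjoint_inner_left, RL_apply, inner_RC hT V hz]

/-- the resolvent in the lower half plane -/
def RCL (V : G → ℝ) {z : ℂ} (hz : 0 < z.im) : E G →L[ℂ] E G :=
  ContinuousLinearMap.adjoint (RL hT V hz)

theorem RCL_apply (V : G → ℝ) {z : ℂ} (hz : 0 < z.im) (f : E G) :
    RCL hT V hz f = RC T V z f := adjoint_RL hT V hz f

theorem tr_RL (V : G → ℝ) {z : ℂ} (hz : 0 < z.im) : tr (RL hT V hz) = RL hT V hz := by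
  ext1 f
  rw [tr_apply, adjoint_RL, RL_apply]
  unfold RC
  rw [star_star, star_star]

theorem tr_RCL (V : G → ℝ) {z : ℂ} (hz : 0 < z.im) : tr (RCL hT V hz) = RCL hT V hz := by
  ext1 f
  rw [tr_apply, RCL_apply]
  unfold RCL
  rw [ContinuousLinearMap.adjoint_adjoint, RL_apply]
  rfl

theorem norm_RL_le (V : G → ℝ) {z : ℂ} (hz : 0 < z.im) : ‖RL hT V hz‖ ≤ z.im⁻¹ :=
  LinearMap.mkContinuous_norm_le _ (inv_nonneg.2 hz.le) _

theorem adjoint_UL (V : G → ℝ) (t : ℝ) :
    ContinuousLinearMap.adjoint (UL hT V t) = UL hT V (-t) := by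
  ext1 f
  refine ext_inner_right ℂ fun g => ?_
  rw [ContinuousLinearMap.adjoint_inner_left, inner_UL hT, neg_neg]

theorem tr_UL (V : G → ℝ) (t : ℝ) : tr (UL hT V t) = UL hT V t := by
  ext1 f
  rw [tr_apply, adjoint_UL, UL_apply, UL_apply, star_UU hT, star_star, neg_neg]

theorem norm_UL_le (V : G → ℝ) (t : ℝ) : ‖UL hT V t‖ ≤ 1 :=
  LinearMap.mkContinuous_norm_le _ zero_le_one _

theorem cov_UL (t : ℝ) : Cov (fun V => UL hT V t) := by
  refine ⟨fun f => ?_, fun g V f => ?_, ⟨1, fun V => norm_UL_le hT V t⟩⟩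
  · have g : Continuous (fun V : G → ℝ => ((V, t, f) : (G → ℝ) × ℝ × E G)) := by fun_prop
    have h := Continuous.comp (continuous_UU T) g
    exact h.stronglyMeasurable
  · exact UU_sh hT g V t f

attribute [local irreducible] RR UU

variable {ε : ℝ}

theorem zpos (hε : 0 < ε) (a : ℝ) : 0 < (zz ε a).im := by rw [zz_im]; exact hε

include hT in
theorem sm_RR (hε : 0 < ε) (f : E G) :
    StronglyMeasurable (fun p : (G → ℝ) × ℝ => RR T p.1 (zz ε p.2) f) := by
  have g : Continuous (fun p : (G → ℝ) × ℝ => ((p.1, p.2, f) : (G → ℝ) × ℝ × E G)) := by fun_prop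
  have h := Continuous.comp (continuous_RR hT hε) g
  exact h.stronglyMeasurable

theorem cov_RL (hε : 0 < ε) (a : ℝ) : Cov (fun V => RL hT V (zpos hε a)) := by
  refine ⟨fun f => ?_, fun g V f => ?_, ⟨(zz ε a).im⁻¹, fun V => norm_RL_le hT V _⟩⟩
  · have h1 : Measurable (fun V : G → ℝ => ((V, a) : (G → ℝ) × ℝ)) := by fun_prop
    simp only [RL_apply]
    have h2 := (sm_RR hT hε f).comp_measurable h1
    exact h2
  · exact RR_sh hT V (zpos hε a) g f

theorem cov_RCL (hε : 0 < ε) (a : ℝ) : Cov (fun V => RCL hT V (zpos hε a)) := by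
  refine ⟨fun f => ?_, fun g V f => ?_, ⟨(zz ε a).im⁻¹, fun V => ?_⟩⟩
  · have h1 : Measurable (fun V : G → ℝ => ((V, a) : (G → ℝ) × ℝ)) := by fun_prop
    simp_rw [RCL_apply]
    unfold RC
    have h2 := (sm_RR hT hε (star f)).comp_measurable h1
    have h3 := continuous_star_E.comp_stronglyMeasurable h2
    exact h3
  · rw [RCL_apply, RCL_apply]
    exact RC_sh hT V (zpos hε a) g f
  · unfold RCL
    rw [LinearIsometryEquiv.norm_map]
    exact norm_RL_le hT V _

/-- an abstract resolvent-like kernel -/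
structure PK (ε : ℝ) (K : (G → ℝ) → ℝ → (E G →L[ℂ] E G)) : Prop where
  cov : ∀ a, Cov (fun V => K V a)
  tr : ∀ V a, tr (K V a) = K V a
  pl : ∀ V f, ∫⁻ a, ENNReal.ofReal ε * ‖K V a f‖ₑ ^ 2 = ENNReal.ofReal Real.pi * ‖f‖ₑ ^ 2
  meas : ∀ f, StronglyMeasurable (fun p : (G → ℝ) × ℝ => K p.1 p.2 f)

theorem PK.RL (hε : 0 < ε) : PK ε (fun V a => RL hT V (zpos hε a)) where
  cov := cov_RL hT hε
  tr := fun V a => tr_RL hT V _
  pl := fun V f => by
    simp only [RL_apply]
    exact planch hT V hε f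
  meas := fun f => sm_RR hT hε f

theorem PK.RCL (hε : 0 < ε) : PK ε (fun V a => RCL hT V (zpos hε a)) where
  cov := cov_RCL hT hε
  tr := fun V a => tr_RCL hT V _
  pl := fun V f => by
    have h : ∀ a : ℝ, ‖NoBal.RCL hT V (zpos hε a) f‖ₑ = ‖RR T V (zz ε a) f‖ₑ := by
      intro a
      rw [RCL_apply, ← ofReal_norm, ← ofReal_norm, norm_RC hT V (zpos hε a)]
    simp_rw [h]
    exact planch hT V hε f
  meas := fun f => by
    simp_rw [RCL_apply]
    unfold RC
    exact continuous_star_E.comp_stronglyMeasurable (sm_RR hT hε (star f))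

variable (ν : Measure ℝ) [IsProbabilityMeasure ν]

omit [AddCommGroup G] in
theorem measurable_enorm_sq {Ω : Type*} [MeasurableSpace Ω] {u : Ω → E G}
    (hu : StronglyMeasurable u) : Measurable (fun ω => ‖u ω‖ₑ ^ 2) :=
  (hu.enorm).pow_const 2

theorem PK.meas_apply {K : (G → ℝ) → ℝ → (E G →L[ℂ] E G)} (hK : PK ε K)
    {u : (G → ℝ) × ℝ → E G} (hu : StronglyMeasurable u) :
    StronglyMeasurable (fun p : (G → ℝ) × ℝ => K p.1 p.2 (u p)) :=
  sm_apply (D := fun p : (G → ℝ) × ℝ => K p.1 p.2) (fun y => hK.meas (del y)) hu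

/-- **trace-Plancherel identity** -/
theorem PK.trace {K : (G → ℝ) → ℝ → (E G →L[ℂ] E G)} (hK : PK ε K)
    {D : (G → ℝ) → (E G →L[ℂ] E G)} (hD : Cov D) :
    ∫⁻ V, (∫⁻ a : ℝ, ENNReal.ofReal ε * ‖D V (K V a (del 0))‖ₑ ^ 2) ∂(PP G ν) =
      ENNReal.ofReal Real.pi * ∫⁻ V, ‖D V (del 0)‖ₑ ^ 2 ∂(PP G ν) := by
  have hm1 : Measurable (fun p : (G → ℝ) × ℝ =>
      ENNReal.ofReal ε * ‖D p.1 (K p.1 p.2 (del 0))‖ₑ ^ 2) := by
    have h1 : StronglyMeasurable (fun p : (G → ℝ) × ℝ => D p.1 (K p.1 p.2 (del 0))) :=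
      sm_apply (D := fun p : (G → ℝ) × ℝ => D p.1)
        (fun y => (hD.meas (del y)).comp_measurable measurable_fst) (hK.meas (del 0))
    exact (measurable_enorm_sq h1).const_mul _
  have hm2 : Measurable (fun p : (G → ℝ) × ℝ =>
      ENNReal.ofReal ε * ‖K p.1 p.2 (NoBal.tr (D p.1) (del 0))‖ₑ ^ 2) := by
    have h1 := hK.meas_apply
      (u := fun p : (G → ℝ) × ℝ => NoBal.tr (D p.1) (del 0))
      ((hD.tr.meas (del 0)).comp_measurable measurable_fst)
    exact (measurable_enorm_sq h1).const_mul _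
  rw [lintegral_lintegral_swap hm1.aemeasurable]
  have h2 : ∀ a : ℝ, ∫⁻ V, ENNReal.ofReal ε * ‖D V (K V a (del 0))‖ₑ ^ 2 ∂(PP G ν) =
      ∫⁻ V, ENNReal.ofReal ε * ‖K V a (NoBal.tr (D V) (del 0))‖ₑ ^ 2 ∂(PP G ν) := by
    intro a
    rw [lintegral_const_mul' _ _ ENNReal.ofReal_ne_top,
      lintegral_const_mul' _ _ ENNReal.ofReal_ne_top]
    congr 1
    have h3 := (hD.comp (hK.cov a)).trace ν
    simp only [ContinuousLinearMap.comp_apply, tr_comp, hK.tr] at h3
    exact h3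
  simp_rw [h2]
  rw [← lintegral_lintegral_swap hm2.aemeasurable]
  simp_rw [hK.pl]
  rw [lintegral_const_mul' _ _ ENNReal.ofReal_ne_top, hD.trace ν]

end Pool.Agent.NoBal
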