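import Pool.Agent.Helper39_NoBal.Ell2

/-!
# The Dyson series for `T + V`
-/

set_option autoImplicit false

open scoped ENNReal InnerProductSpace ComplexConjugate Topology Interval
open Filter MeasureTheory Set

noncomputable section

namespace Pool.Agent.NoBal

variable {G : Type*}

/-- the hopping operator in the interaction picture, `e^{isV} T e^{-isV}` -/
def W (T : E G →L[ℂ] E G) (V : G → ℝ) (s : ℝ) (f : E G) : E G :=
  ph (s • V) (T (ph (-(s • V)) f))

theorem norm_W_le (T : E G →L[ℂ] E G) (V : G → ℝ) (s : ℝ) (f : E G) :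
    ‖W T V s f‖ ≤ ‖T‖ * ‖f‖ := by
  unfold W
  rw [norm_ph]
  refine (T.le_opNorm _).trans ?_
  rw [norm_ph]

theorem W_add (T : E G →L[ℂ] E G) (V : G → ℝ) (s : ℝ) (f g : E G) :
    W T V s (f + g) = W T V s f + W T V s g := by
  unfold W
  rw [ph_add, map_add, ph_add]

theorem W_smul (T : E G →L[ℂ] E G) (V : G → ℝ) (s : ℝ) (c : ℂ) (f : E G) :
    W T V s (c • f) = c • W T V s f := by
  unfold W
  rw [ph_smul, map_smul, ph_smul]

/-- `W` as a continuous linear map -/
def WL (T : E G →L[ℂ] E G) (V : G → ℝ) (s : ℝ) : E G →L[ℂ] E G :=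
  (phL (s • V)).comp (T.comp (phL (-(s • V))))

theorem WL_apply (T : E G →L[ℂ] E G) (V : G → ℝ) (s : ℝ) (f : E G) :
    WL T V s f = W T V s f := rfl

theorem continuous_W (T : E G →L[ℂ] E G) :
    Continuous fun p : (G → ℝ) × ℝ × E G => W T p.1 p.2.1 p.2.2 := by
  unfold W
  have h1 : Continuous fun p : (G → ℝ) × ℝ × E G => p.2.1 • p.1 := by fun_prop
  have h2 : Continuous fun p : (G → ℝ) × ℝ × E G => ph (-(p.2.1 • p.1)) p.2.2 :=
    continuous_ph.comp (h1.neg.prodMk (by fun_prop))
  exact continuous_ph.comp (h1.prodMk (T.continuous.comp h2))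

/-- the terms of the Dyson series -/
def Dy (T : E G →L[ℂ] E G) (V : G → ℝ) (f : E G) : ℕ → ℝ → E G
  | 0, _ => f
  | n + 1, t => -Complex.I • ∫ s in (0 : ℝ)..t, W T V s (Dy T V f n s)

theorem continuous_Dy (T : E G →L[ℂ] E G) (n : ℕ) :
    Continuous fun p : ((G → ℝ) × E G) × ℝ => Dy T p.1.1 p.1.2 n p.2 := by
  induction n with
  | zero =>
    simp only [Dy]
    fun_prop
  | succ n ih =>
    simp only [Dy]
    have h1 : Continuous (fun p : ((G → ℝ) × E G) × ℝ => W T p.1.1 p.2 (Dy T p.1.1 p.1.2 n p.2)) := by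
      exact (continuous_W T).comp ((by fun_prop : Continuous
        fun p : ((G → ℝ) × E G) × ℝ => p.1.1).prodMk
          ((by fun_prop : Continuous fun p : ((G → ℝ) × E G) × ℝ => p.2).prodMk ih))
    have h2 := intervalIntegral.continuous_parametric_primitive_of_continuous
      (μ := volume) (a₀ := (0:ℝ))
      (f := fun (q : (G → ℝ) × E G) (s : ℝ) => W T q.1 s (Dy T q.1 q.2 n s)) h1
    exact h2.const_smul (-Complex.I)

theorem norm_Dy_le (T : E G →L[ℂ] E G) (V : G → ℝ) (f : E G) (n : ℕ) (t : ℝ) :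
    ‖Dy T V f n t‖ ≤ (‖T‖ * |t|) ^ n / n.factorial * ‖f‖ := by
  induction n generalizing t with
  | zero => simp [Dy]
  | succ n ih =>
    simp only [Dy]
    rw [norm_smul, norm_neg, Complex.norm_I, one_mul]
    refine (intervalIntegral.norm_integral_le_integral_norm_uIoc).trans ?_
    have h1 : ∫ s in Ι (0:ℝ) t, ‖W T V s (Dy T V f n s)‖ ≤
        ∫ s in Ι (0:ℝ) t, (‖T‖ ^ (n + 1) / n.factorial * ‖f‖) * |s - 0| ^ n := by
      apply setIntegral_mono
      · have hc : Continuous fun s => ‖W T V s (Dy T V f n s)‖ := by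
          refine Continuous.norm ?_
          have h := (continuous_W T).comp ((continuous_const (y := V)).prodMk
            ((continuous_id (X := ℝ)).prodMk
              ((continuous_Dy T n).comp ((continuous_const (y := (V, f))).prodMk continuous_id))))
          exact h
        exact (hc.integrableOn_uIcc (a := 0) (b := t)).mono_set uIoc_subset_uIcc
      · have hc : Continuous fun s : ℝ => (‖T‖ ^ (n + 1) / n.factorial * ‖f‖) * |s - 0| ^ n := by
          fun_prop
        exact (hc.integrableOn_uIcc (a := 0) (b := t)).mono_set uIoc_subset_uIcc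
      · intro s
        refine (norm_W_le T V s _).trans ?_
        refine (mul_le_mul_of_nonneg_left (ih s) (norm_nonneg _)).trans (le_of_eq ?_)
        simp only [sub_zero, mul_pow]
        ring
    refine h1.trans (le_of_eq ?_)
    rw [integral_const_mul, integral_pow_abs_sub_uIoc, sub_zero, Nat.factorial_succ, mul_pow]
    push_cast
    have hf : (n.factorial : ℝ) ≠ 0 := by positivity
    have hn : ((n : ℝ) + 1) ≠ 0 := by positivity
    field_simp

theorem summable_bound (a b : ℝ) : Summable fun n : ℕ => a ^ n / n.factorial * b :=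
  (Real.summable_pow_div_factorial a).mul_right b

theorem summable_Dy (T : E G →L[ℂ] E G) (V : G → ℝ) (f : E G) (t : ℝ) :
    Summable fun n => Dy T V f n t :=
  Summable.of_norm_bounded (summable_bound _ _) (fun n => norm_Dy_le T V f n t)

/-- the solution in the interaction picture -/
def uu (T : E G →L[ℂ] E G) (V : G → ℝ) (f : E G) (t : ℝ) : E G := ∑' n, Dy T V f n t

theorem hasSum_Dy (T : E G →L[ℂ] E G) (V : G → ℝ) (f : E G) (t : ℝ) :
    HasSum (fun n => Dy T V f n t) (uu T V f t) := (summable_Dy T V f t).hasSum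

theorem continuous_uu (T : E G →L[ℂ] E G) :
    Continuous fun p : ((G → ℝ) × E G) × ℝ => uu T p.1.1 p.1.2 p.2 := by
  rw [continuous_iff_continuousAt]
  intro p₀
  set M : ℝ := |p₀.2| + 1 with hM
  set N : ℝ := ‖p₀.1.2‖ + 1 with hN
  have hopen : IsOpen {p : ((G → ℝ) × E G) × ℝ | |p.2| < M ∧ ‖p.1.2‖ < N} := by
    have c1 : Continuous fun p : ((G → ℝ) × E G) × ℝ => |p.2| := by fun_prop
    have c2 : Continuous fun p : ((G → ℝ) × E G) × ℝ => ‖p.1.2‖ := by fun_prop
    exact (isOpen_lt c1 continuous_const).inter (isOpen_lt c2 continuous_const)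
  have hmem : p₀ ∈ {p : ((G → ℝ) × E G) × ℝ | |p.2| < M ∧ ‖p.1.2‖ < N} := by
    constructor
    · rw [hM]; linarith
    · rw [hN]; linarith
  have hb : ∀ (n : ℕ) (p : ((G → ℝ) × E G) × ℝ),
      p ∈ {p : ((G → ℝ) × E G) × ℝ | |p.2| < M ∧ ‖p.1.2‖ < N} →
      ‖Dy T p.1.1 p.1.2 n p.2‖ ≤ (‖T‖ * M) ^ n / n.factorial * N := by
    rintro n p ⟨h1, h2⟩
    refine (norm_Dy_le T _ _ n _).trans ?_
    have h3 : (‖T‖ * |p.2|) ^ n ≤ (‖T‖ * M) ^ n :=
      pow_le_pow_left₀ (by positivity) (mul_le_mul_of_nonneg_left h1.le (norm_nonneg _)) n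
    have h4 : (‖T‖ * |p.2|) ^ n / n.factorial ≤ (‖T‖ * M) ^ n / n.factorial :=
      div_le_div_of_nonneg_right h3 (by positivity)
    exact mul_le_mul h4 h2.le (norm_nonneg _) (le_trans (by positivity) h4)
  have hc := continuousOn_tsum (F := E G) (s := {p : ((G → ℝ) × E G) × ℝ | |p.2| < M ∧ ‖p.1.2‖ < N})
    (f := fun (n : ℕ) (p : ((G → ℝ) × E G) × ℝ) => Dy T p.1.1 p.1.2 n p.2)
    (u := fun n : ℕ => (‖T‖ * M) ^ n / n.factorial * N)
    (fun n => (continuous_Dy T n).continuousOn) (summable_bound _ _) hb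
  exact hc.continuousAt (hopen.mem_nhds hmem)

theorem continuous_uu' (T : E G →L[ℂ] E G) (V : G → ℝ) (f : E G) :
    Continuous (uu T V f) :=
  (continuous_uu T).comp ((continuous_const (y := (V, f))).prodMk continuous_id)

theorem continuous_Wuu (T : E G →L[ℂ] E G) (V : G → ℝ) (f : E G) :
    Continuous fun s => W T V s (uu T V f s) :=
  (continuous_W T).comp ((continuous_const (y := V)).prodMk
            ((continuous_id (X := ℝ)).prodMk (continuous_uu' T V f)))

theorem continuous_WDy (T : E G →L[ℂ] E G) (V : G → ℝ) (f : E G) (n : ℕ) :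
    Continuous fun s => W T V s (Dy T V f n s) :=
  (continuous_W T).comp ((continuous_const (y := V)).prodMk
            ((continuous_id (X := ℝ)).prodMk
              ((continuous_Dy T n).comp ((continuous_const (y := (V, f))).prodMk continuous_id))))

theorem uu_eq (T : E G →L[ℂ] E G) (V : G → ℝ) (f : E G) (t : ℝ) :
    uu T V f t = f + -Complex.I • ∫ s in (0 : ℝ)..t, W T V s (uu T V f s) := by
  have h1 : HasSum (fun n => ∫ s in (0 : ℝ)..t, W T V s (Dy T V f n s))
      (∫ s in (0 : ℝ)..t, W T V s (uu T V f s)) := by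
    refine intervalIntegral.hasSum_integral_of_dominated_convergence
      (bound := fun n s => ‖T‖ * ((‖T‖ * |s|) ^ n / n.factorial * ‖f‖)) ?_ ?_ ?_ ?_ ?_
    · intro n
      exact (continuous_WDy T V f n).aestronglyMeasurable
    · intro n
      refine Eventually.of_forall fun s _ => ?_
      exact (norm_W_le T V s _).trans
        (mul_le_mul_of_nonneg_left (norm_Dy_le T V f n s) (norm_nonneg _))
    · refine Eventually.of_forall fun s _ => (summable_bound _ _).mul_left _
    · have h2 : ∀ s : ℝ, ∑' n : ℕ, ‖T‖ * ((‖T‖ * |s|) ^ n / n.factorial * ‖f‖) =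
          ‖T‖ * (Real.exp (‖T‖ * |s|) * ‖f‖) := by
        intro s
        rw [tsum_mul_left, tsum_mul_right]
        congr 2
        rw [Real.exp_eq_exp_ℝ, NormedSpace.exp_eq_tsum_div]
      simp_rw [h2]
      apply Continuous.intervalIntegrable
      fun_prop
    · refine Eventually.of_forall fun s _ => ?_
      exact (hasSum_Dy T V f s).mapL (WL T V s)
  have h3 : HasSum (fun n => Dy T V f (n + 1) t)
      (-Complex.I • ∫ s in (0 : ℝ)..t, W T V s (uu T V f s)) := by
    simp only [Dy]
    exact h1.const_smul _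
  have h4 : HasSum (fun n => Dy T V f (n + 1) t) (uu T V f t - f) := by
    have h := (hasSum_nat_add_iff' (f := fun n => Dy T V f n t) 1).2 (hasSum_Dy T V f t)
    simpa [Dy] using h
  have h5 := h4.unique h3
  rw [← h5]; abel

theorem hasDerivAt_uu (T : E G →L[ℂ] E G) (V : G → ℝ) (f : E G) (t : ℝ) :
    HasDerivAt (uu T V f) (-Complex.I • W T V t (uu T V f t)) t := by
  have h1 : HasDerivAt (fun t => f + -Complex.I • ∫ s in (0 : ℝ)..t, W T V s (uu T V f s))
      (-Complex.I • W T V t (uu T V f t)) t := by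
    have hc := continuous_Wuu T V f
    have h2 := intervalIntegral.integral_hasDerivAt_right (hc.intervalIntegrable 0 t)
      (hc.stronglyMeasurableAtFilter _ _) hc.continuousAt
    exact (h2.const_smul (-Complex.I)).const_add f
  refine h1.congr_of_eventuallyEq (Eventually.of_forall fun s => ?_)
  exact uu_eq T V f s

end Pool.Agent.NoBal
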