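import Mathlib

/-!
# The Hilbert space `ℓ²(G)`: phases, shifts, unit vectors
-/

set_option autoImplicit false

open scoped ENNReal InnerProductSpace ComplexConjugate Topology
open Filter

noncomputable section

namespace Pool.Agent.NoBal

variable {G : Type*}

/-- `ℓ²(G)`. -/
abbrev E (G : Type*) : Type _ := lp (fun _ : G => ℂ) 2

theorem two_pos' : 0 < (2 : ℝ≥0∞).toReal := by norm_num

theorem memℓp_iff (f : G → ℂ) : Memℓp f 2 ↔ Summable fun x => ‖f x‖ ^ 2 := by
  rw [memℓp_gen_iff two_pos']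
  simp

theorem summable_sq (f : E G) : Summable fun x => ‖f x‖ ^ 2 := (memℓp_iff _).1 (lp.memℓp f)

theorem norm_sq (f : E G) : ‖f‖ ^ 2 = ∑' x, ‖f x‖ ^ 2 := by
  have := lp.norm_rpow_eq_tsum two_pos' f
  simpa using this

theorem hasSum_sq (f : E G) : HasSum (fun x => ‖f x‖ ^ 2) (‖f‖ ^ 2) := by
  rw [norm_sq]
  exact (summable_sq f).hasSum

theorem norm_eq_of_sq {f g : E G} (h : ‖f‖ ^ 2 = ‖g‖ ^ 2) : ‖f‖ = ‖g‖ := by
  nlinarith [norm_nonneg f, norm_nonneg g, sq_nonneg (‖f‖ - ‖g‖)]

theorem norm_coord_le (f : E G) (x : G) : ‖f x‖ ≤ ‖f‖ := lp.norm_apply_le_norm (by norm_num) f x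

@[simp] theorem coe_add (f g : E G) (x : G) : (f + g) x = f x + g x := rfl
@[simp] theorem coe_sub (f g : E G) (x : G) : (f - g) x = f x - g x := rfl
@[simp] theorem coe_neg (f : E G) (x : G) : (-f) x = -f x := rfl
@[simp] theorem coe_smul (c : ℂ) (f : E G) (x : G) : (c • f) x = c * f x := rfl
@[simp] theorem coe_zero (x : G) : (0 : E G) x = 0 := rfl
@[simp] theorem coe_star (f : E G) (x : G) : (star f) x = conj (f x) := rfl

theorem coe_sum {ι : Type*} (s : Finset ι) (F : ι → E G) (x : G) :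
    (∑ i ∈ s, F i : E G) x = ∑ i ∈ s, F i x := by
  rw [lp.coeFn_sum, Finset.sum_apply]

theorem continuous_coord (x : G) : Continuous (fun f : E G => f x) :=
  (lp.evalCLM ℂ (fun _ : G => ℂ) 2 x).continuous

/-- evaluation at a point as a continuous linear functional -/
def ev (x : G) : E G →L[ℂ] ℂ := lp.evalCLM ℂ (fun _ : G => ℂ) 2 x

@[simp] theorem ev_apply (x : G) (f : E G) : ev x f = f x := rfl

/-! ### phases -/

theorem norm_expI (a : ℝ) : ‖Complex.exp (Complex.I * a)‖ = 1 := by
  rw [mul_comm]; exact Complex.norm_exp_ofReal_mul_I a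

theorem ph_mem (θ : G → ℝ) (f : E G) :
    Memℓp (fun x => Complex.exp (Complex.I * θ x) * f x) 2 := by
  rw [memℓp_iff]
  have h := summable_sq f
  refine h.congr fun x => ?_
  rw [norm_mul, norm_expI, one_mul]

/-- multiplication by `e^{iθ}` -/
def ph (θ : G → ℝ) (f : E G) : E G := ⟨_, ph_mem θ f⟩

theorem ph_apply (θ : G → ℝ) (f : E G) (x : G) :
    ph θ f x = Complex.exp (Complex.I * θ x) * f x := rfl

theorem norm_ph (θ : G → ℝ) (f : E G) : ‖ph θ f‖ = ‖f‖ := by
  apply norm_eq_of_sq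
  rw [norm_sq, norm_sq]
  refine tsum_congr fun x => ?_
  rw [ph_apply, norm_mul, norm_expI, one_mul]

theorem ph_add (θ : G → ℝ) (f g : E G) : ph θ (f + g) = ph θ f + ph θ g := by
  ext x; simp only [ph_apply, coe_add]; ring

theorem ph_sub (θ : G → ℝ) (f g : E G) : ph θ (f - g) = ph θ f - ph θ g := by
  ext x; simp only [ph_apply, coe_sub]; ring

theorem ph_smul (θ : G → ℝ) (c : ℂ) (f : E G) : ph θ (c • f) = c • ph θ f := by
  ext x; simp only [ph_apply, coe_smul]; ring

theorem ph_zero_left (f : E G) : ph 0 f = f := by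
  ext x; simp [ph_apply]

theorem ph_ph (θ θ' : G → ℝ) (f : E G) : ph θ (ph θ' f) = ph (θ + θ') f := by
  ext x
  simp only [ph_apply, Pi.add_apply, Complex.ofReal_add]
  rw [mul_add, Complex.exp_add, mul_assoc]

/-- multiplication by `e^{iθ}` as a continuous linear map -/
def phL (θ : G → ℝ) : E G →L[ℂ] E G :=
  LinearMap.mkContinuous
    { toFun := ph θ, map_add' := ph_add θ, map_smul' := ph_smul θ } 1
    (fun f => by
      show ‖ph θ f‖ ≤ 1 * ‖f‖
      rw [norm_ph, one_mul])

@[simp] theorem phL_apply (θ : G → ℝ) (f : E G) : phL θ f = ph θ f := rfl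

theorem star_ph (θ : G → ℝ) (f : E G) : star (ph θ f) = ph (-θ) (star f) := by
  ext x
  simp only [coe_star, ph_apply, map_mul, Pi.neg_apply, Complex.ofReal_neg]
  rw [← Complex.exp_conj, map_mul, Complex.conj_I, Complex.conj_ofReal]
  ring_nf

theorem tendsto_ph (θ₀ : G → ℝ) (f : E G) :
    Tendsto (fun θ => ph θ f) (𝓝 θ₀) (𝓝 (ph θ₀ f)) := by
  rw [tendsto_iff_norm_sub_tendsto_zero]
  have h1 : Tendsto (fun θ => ‖ph θ f - ph θ₀ f‖ ^ 2) (𝓝 θ₀) (𝓝 0) := by
    have h2 : ∀ θ : G → ℝ, ‖ph θ f - ph θ₀ f‖ ^ 2 =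
        ∑' x, ‖(Complex.exp (Complex.I * θ x) - Complex.exp (Complex.I * θ₀ x)) * f x‖ ^ 2 := by
      intro θ
      rw [norm_sq]
      refine tsum_congr fun x => ?_
      rw [coe_sub, ph_apply, ph_apply, sub_mul]
    simp_rw [h2]
    have h3 : (0 : ℝ) = ∑' x : G, (0 : ℝ) := by simp
    rw [h3]
    refine tendsto_tsum_of_dominated_convergence (bound := fun x => 4 * ‖f x‖ ^ 2)
      ((summable_sq f).mul_left 4) ?_ ?_
    · intro x
      have h4 : Continuous fun θ : G → ℝ =>
          ‖(Complex.exp (Complex.I * θ x) - Complex.exp (Complex.I * θ₀ x)) * f x‖ ^ 2 := by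
        fun_prop
      have h5 := h4.tendsto θ₀
      simpa using h5
    · refine Eventually.of_forall fun θ x => ?_
      rw [norm_mul, mul_pow, Real.norm_of_nonneg (by positivity)]
      have h6 : ‖Complex.exp (Complex.I * θ x) - Complex.exp (Complex.I * θ₀ x)‖ ≤ 2 := by
        refine (norm_sub_le _ _).trans ?_
        rw [norm_expI, norm_expI]; norm_num
      have h7 : ‖Complex.exp (Complex.I * θ x) - Complex.exp (Complex.I * θ₀ x)‖ ^ 2 ≤ 4 := by
        nlinarith [norm_nonneg (Complex.exp (Complex.I * θ x) - Complex.exp (Complex.I * θ₀ x))]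
      exact mul_le_mul_of_nonneg_right h7 (by positivity)
  have h8 := h1.sqrt
  rw [Real.sqrt_zero] at h8
  refine h8.congr fun θ => ?_
  rw [Real.sqrt_sq (norm_nonneg _)]

theorem continuous_ph : Continuous fun p : (G → ℝ) × E G => ph p.1 p.2 := by
  rw [continuous_iff_continuousAt]
  rintro ⟨θ₀, f₀⟩
  have h1 : Tendsto (fun p : (G → ℝ) × E G => ph p.1 f₀) (𝓝 (θ₀, f₀)) (𝓝 (ph θ₀ f₀)) :=
    (tendsto_ph θ₀ f₀).comp (continuous_fst.tendsto _)
  have h2 : Tendsto (fun p : (G → ℝ) × E G => ph p.1 (p.2 - f₀)) (𝓝 (θ₀, f₀)) (𝓝 0) := by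
    rw [tendsto_zero_iff_norm_tendsto_zero]
    have h3 : Tendsto (fun p : (G → ℝ) × E G => ‖p.2 - f₀‖) (𝓝 (θ₀, f₀)) (𝓝 0) := by
      have : Continuous fun p : (G → ℝ) × E G => ‖p.2 - f₀‖ := by fun_prop
      have h := this.tendsto (θ₀, f₀)
      simpa using h
    refine h3.congr fun p => ?_
    rw [norm_ph]
  have h4 := h1.add h2
  rw [add_zero] at h4
  refine h4.congr fun p => ?_
  rw [← ph_add]
  congr 1
  abel

/-! ### unit vectors -/

section del
variable [DecidableEq G]

/-- the unit vector at `x` -/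
def del (x : G) : E G := lp.single 2 x (1 : ℂ)

theorem del_apply (x y : G) : del x y = if y = x then 1 else 0 := by
  unfold del
  rw [lp.single_apply, Pi.single_apply]

@[simp] theorem del_self (x : G) : del x x = 1 := by simp [del_apply]

@[simp] theorem norm_del (x : G) : ‖del x‖ = 1 := by
  unfold del
  rw [lp.norm_single (by norm_num), norm_one]

theorem inner_del_left (x : G) (f : E G) : ⟪del x, f⟫_ℂ = f x := by
  unfold del
  rw [lp.inner_single_left, RCLike.inner_apply, map_one, mul_one]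

theorem inner_del_right (x : G) (f : E G) : ⟪f, del x⟫_ℂ = conj (f x) := by
  unfold del
  rw [lp.inner_single_right, RCLike.inner_apply, one_mul]

@[simp] theorem star_del (x : G) : star (del x) = del x := by
  ext y
  rw [coe_star, del_apply]
  split_ifs <;> simp

theorem hasSum_del (f : E G) : HasSum (fun x => f x • del x) f := by
  have h := lp.hasSum_single (p := 2) (by norm_num) f
  refine h.congr_fun ?_ |> fun h => h
  intro x
  ext y
  simp only [coe_smul, del_apply, lp.single_apply, Pi.single_apply]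
  split_ifs with h
  · subst h; simp
  · simp

/-- two continuous linear maps that agree on all unit vectors are equal -/
theorem clm_ext {F : Type*} [NormedAddCommGroup F] [NormedSpace ℂ F] {S T : E G →L[ℂ] F}
    (h : ∀ x, S (del x) = T (del x)) : S = T := by
  ext f
  have h1 := (hasSum_del f).mapL S
  have h2 := (hasSum_del f).mapL T
  have h3 : (fun x => S (f x • del x)) = fun x => T (f x • del x) := by
    funext x
    rw [map_smul, map_smul, h]
  rw [h3] at h1
  exact h1.unique h2

end del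

theorem inner_star_star (f g : E G) : ⟪star f, star g⟫_ℂ = ⟪g, f⟫_ℂ := by
  rw [lp.inner_eq_tsum, lp.inner_eq_tsum]
  refine tsum_congr fun x => ?_
  rw [RCLike.inner_apply, RCLike.inner_apply, coe_star, coe_star, Complex.conj_conj]
  ring

/-! ### shifts -/

section shift
variable [AddCommGroup G]

theorem sh_mem (g : G) (f : E G) : Memℓp (fun y => f (y - g)) 2 := by
  rw [memℓp_iff]
  have h := (summable_sq f).comp_injective (sub_left_injective (b := g))
  exact h

/-- translation by `g` -/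
def shI (g : G) : E G →ₗᵢ[ℂ] E G where
  toFun f := ⟨fun y => f (y - g), sh_mem g f⟩
  map_add' f h := by ext y; rfl
  map_smul' c f := by ext y; rfl
  norm_map' f := by
    apply norm_eq_of_sq
    rw [norm_sq, norm_sq]
    exact (Equiv.subRight g).tsum_eq (fun x => ‖f x‖ ^ 2)

/-- translation by `g`, `(sh g f)(x) = f(x - g)` -/
def sh (g : G) : E G →L[ℂ] E G := (shI g).toContinuousLinearMap

@[simp] theorem sh_apply (g : G) (f : E G) (y : G) : sh g f y = f (y - g) := rfl

theorem norm_sh (g : G) (f : E G) : ‖sh g f‖ = ‖f‖ := (shI g).norm_map f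

theorem sh_sh (g h : G) (f : E G) : sh g (sh h f) = sh (g + h) f := by
  ext y
  simp only [sh_apply]
  rw [sub_sub]

theorem sh_zero (f : E G) : sh 0 f = f := by
  ext y; simp

theorem sh_neg_sh (g : G) (f : E G) : sh (-g) (sh g f) = f := by
  rw [sh_sh, neg_add_cancel, sh_zero]

theorem sh_sh_neg (g : G) (f : E G) : sh g (sh (-g) f) = f := by
  rw [sh_sh, add_neg_cancel, sh_zero]

theorem star_sh (g : G) (f : E G) : star (sh g f) = sh g (star f) := rfl

theorem inner_sh (g : G) (f h : E G) : ⟪sh g f, h⟫_ℂ = ⟪f, sh (-g) h⟫_ℂ := by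
  rw [lp.inner_eq_tsum, lp.inner_eq_tsum,
    ← (Equiv.addRight g).tsum_eq (fun x => ⟪sh g f x, h x⟫_ℂ)]
  refine tsum_congr fun x => ?_
  simp only [Equiv.coe_addRight, sh_apply]
  rw [add_sub_cancel_right, sub_neg_eq_add]

/-- translation of potentials -/
def shV (g : G) (V : G → ℝ) : G → ℝ := fun x => V (x - g)

theorem continuous_shV (g : G) : Continuous (shV g : (G → ℝ) → (G → ℝ)) := by
  unfold shV; fun_prop

theorem shV_shV (g h : G) (V : G → ℝ) : shV g (shV h V) = shV (g + h) V := by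
  funext y
  simp only [shV]
  rw [sub_sub]

theorem shV_zero (V : G → ℝ) : shV 0 V = V := by funext y; simp [shV]

theorem ph_sh (g : G) (θ : G → ℝ) (f : E G) : ph (shV g θ) (sh g f) = sh g (ph θ f) := by
  ext y
  rfl

theorem sh_del [DecidableEq G] (g x : G) : sh g (del x) = del (x + g) := by
  ext y
  simp only [sh_apply, del_apply, sub_eq_iff_eq_add]

end shift

end Pool.Agent.NoBal
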