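import Pool.Agent.Helper39_NoBal.Dyson

/-!
# The unitary group `e^{-it(T+V)}`
-/

set_option autoImplicit false

open scoped ENNReal InnerProductSpace ComplexConjugate Topology Interval
open Filter MeasureTheory Set

noncomputable section

namespace Pool.Agent.NoBal

variable {G : Type*}

/-- the coordinatewise Schrödinger equation `i ψ' = (T + V) ψ` -/
structure IsSol (T : E G →L[ℂ] E G) (V : G → ℝ) (ψ : ℝ → E G) : Prop where
  cont : Continuous ψ
  deriv : ∀ t x, HasDerivAt (fun s => ψ s x) (-Complex.I * (T (ψ t) x + V x * ψ t x)) t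

/-- `e^{-it(T+V)} f` -/
def UU (T : E G →L[ℂ] E G) (V : G → ℝ) (t : ℝ) (f : E G) : E G :=
  ph (-(t • V)) (uu T V f t)

theorem uu_zero (T : E G →L[ℂ] E G) (V : G → ℝ) (f : E G) : uu T V f 0 = f := by
  rw [uu_eq, intervalIntegral.integral_same, smul_zero, add_zero]

theorem UU_zero (T : E G →L[ℂ] E G) (V : G → ℝ) (f : E G) : UU T V 0 f = f := by
  unfold UU
  rw [uu_zero, zero_smul, neg_zero, ph_zero_left]

theorem continuous_UU (T : E G →L[ℂ] E G) :
    Continuous fun p : (G → ℝ) × ℝ × E G => UU T p.1 p.2.1 p.2.2 := by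
  unfold UU
  have h1 : Continuous fun p : (G → ℝ) × ℝ × E G => -(p.2.1 • p.1) := by fun_prop
  have h2 : Continuous fun p : (G → ℝ) × ℝ × E G => uu T p.1 p.2.2 p.2.1 :=
    (continuous_uu T).comp ((Continuous.prodMk (by fun_prop) (by fun_prop)).prodMk (by fun_prop))
  exact continuous_ph.comp (h1.prodMk h2)

theorem continuous_UU_t (T : E G →L[ℂ] E G) (V : G → ℝ) (f : E G) :
    Continuous fun t => UU T V t f :=
  (continuous_UU T).comp ((continuous_const (y := V)).prodMk
    ((continuous_id (X := ℝ)).prodMk (continuous_const (y := f))))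

theorem isSol_UU (T : E G →L[ℂ] E G) (V : G → ℝ) (f : E G) : IsSol T V (fun t => UU T V t f) := by
  refine ⟨continuous_UU_t T V f, fun t x => ?_⟩
  have h1 : HasDerivAt (fun s => (uu T V f s) x) ((-Complex.I • W T V t (uu T V f t)) x) t :=
    (((ev x).restrictScalars ℝ).hasFDerivAt (x := uu T V f t)).comp_hasDerivAt t
      (hasDerivAt_uu T V f t)
  have h2 : HasDerivAt (fun s : ℝ => Complex.exp (Complex.I * ((-(s • V)) x : ℝ)))
      (Complex.exp (Complex.I * ((-(t • V)) x : ℝ)) * (-(Complex.I * V x))) t := by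
    have h3 : HasDerivAt (fun s : ℝ => Complex.I * ((-(s • V)) x : ℝ)) (-(Complex.I * V x)) t := by
      have h4 : HasDerivAt (fun s : ℝ => ((-(s * V x) : ℝ) : ℂ)) ((-V x : ℝ) : ℂ) t := by
        have h5 : HasDerivAt (fun s : ℝ => -(s * V x)) (-V x) t := by
          have h8 : HasDerivAt (fun s : ℝ => s * V x) (1 * V x) t :=
            (hasDerivAt_id t).mul_const (V x)
          rw [one_mul] at h8
          exact h8.fun_neg
        exact h5.ofReal_comp
      have h6 := h4.const_mul Complex.I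
      refine h6.congr_deriv ?_ |>.congr_of_eventuallyEq (Eventually.of_forall fun s => ?_)
      · push_cast; ring
      · simp
    exact h3.cexp
  have h7 := h2.mul h1
  refine (h7.congr_of_eventuallyEq (Eventually.of_forall fun s => ?_)).congr_deriv ?_
  · rfl
  · have e1 : T (UU T V t f) x = Complex.exp (Complex.I * ((-(t • V)) x : ℝ)) *
        (W T V t (uu T V f t)) x := by
      have e2 : UU T V t f = ph (-(t • V)) (uu T V f t) := rfl
      unfold W
      rw [← e2, ph_apply, ← mul_assoc, ← Complex.exp_add]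
      simp
    have e3 : UU T V t f x = Complex.exp (Complex.I * ((-(t • V)) x : ℝ)) * (uu T V f t) x := rfl
    rw [e1, e3, coe_smul]
    ring

theorem re_aux (z w : ℂ) (v : ℝ) :
    (-Complex.I * (w + v * z) * conj z).re = (conj z * (-Complex.I * w)).re := by
  have e : (-Complex.I * (w + v * z) * conj z) =
      conj z * (-Complex.I * w) + -Complex.I * (v * (conj z * z)) := by
    ring
  rw [e, Complex.add_re]
  have e2 : (-Complex.I * (v * (conj z * z))).re = 0 := by
    rw [← Complex.normSq_eq_conj_mul_self, ← Complex.ofReal_mul]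
    simp
  rw [e2, add_zero]

/-- Energy identity: self-adjoint evolutions preserve the norm. -/
theorem IsSol.norm_eq [Countable G] {T : E G →L[ℂ] E G} {V : G → ℝ} {ψ : ℝ → E G}
    (hT : ∀ f g, ⟪T f, g⟫_ℂ = ⟪f, T g⟫_ℂ) (h : IsSol T V ψ) (t : ℝ) : ‖ψ t‖ = ‖ψ 0‖ := by
  apply norm_eq_of_sq
  set D : G → ℝ → ℝ := fun x s => 2 * (conj (ψ s x) * (-Complex.I * T (ψ s) x)).re with hD
  have hcx : ∀ x, Continuous fun s => ψ s x := fun x => (continuous_coord x).comp h.cont
  have hcT : ∀ x, Continuous fun s => T (ψ s) x := fun x =>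
    (continuous_coord x).comp (T.continuous.comp h.cont)
  have hDc : ∀ x, Continuous (D x) := by
    intro x
    have h1 := hcx x
    have h2 := hcT x
    rw [hD]
    have h3 : Continuous fun s => conj (ψ s x) * (-Complex.I * T (ψ s) x) :=
      (Complex.continuous_conj.comp h1).mul (continuous_const.mul h2)
    exact (Complex.continuous_re.comp h3).const_mul 2 
  have h1 : ∀ x s, HasDerivAt (fun s => ‖ψ s x‖ ^ 2) (D x s) s := by
    intro x s
    have h2 := (h.deriv s x).norm_sq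
    refine h2.congr_deriv ?_
    simp only [hD]
    congr 1
    rw [Complex.inner]
    exact re_aux _ _ _
  have h2 : ∀ x, ∫ s in (0 : ℝ)..t, D x s = ‖ψ t x‖ ^ 2 - ‖ψ 0 x‖ ^ 2 := by
    intro x
    exact intervalIntegral.integral_eq_sub_of_hasDerivAt (fun s _ => h1 x s)
      ((hDc x).intervalIntegrable _ _)
  have hsumD : ∀ s, HasSum (fun x => D x s) 0 := by
    intro s
    have h3 := lp.hasSum_inner (𝕜 := ℂ) (ψ s) (T (ψ s))
    have h4 : (fun x => D x s) = fun x => 2 * (-Complex.I * ⟪ψ s x, T (ψ s) x⟫_ℂ).re := by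
      funext x
      simp only [hD]
      congr 2
      rw [RCLike.inner_apply]
      show conj (ψ s x) * _ = -Complex.I * (_ * conj (ψ s x))
      ring
    rw [h4]
    have h5 := ((Complex.reCLM.hasSum (h3.mul_left (-Complex.I)))).mul_left 2
    have h6 : (2 : ℝ) * Complex.reCLM (-Complex.I * ⟪ψ s, T (ψ s)⟫_ℂ) = 0 := by
      have h7 : (⟪ψ s, T (ψ s)⟫_ℂ).im = 0 := by
        have h8 : conj ⟪ψ s, T (ψ s)⟫_ℂ = ⟪ψ s, T (ψ s)⟫_ℂ := by
          rw [inner_conj_symm, hT]
        exact Complex.conj_eq_iff_im.1 h8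
      simp [h7]
    rw [h6] at h5
    exact h5
  have h3 : HasSum (fun x => ∫ s in (0 : ℝ)..t, D x s) (∫ s in (0 : ℝ)..t, (0 : ℝ)) := by
    refine intervalIntegral.hasSum_integral_of_dominated_convergence
      (bound := fun x s => ‖ψ s x‖ ^ 2 + ‖T (ψ s) x‖ ^ 2) ?_ ?_ ?_ ?_ ?_
    · intro x
      exact (hDc x).aestronglyMeasurable
    · intro x
      refine Eventually.of_forall fun s _ => ?_
      simp only [hD]
      rw [Real.norm_eq_abs, abs_mul, abs_two]
      have h4 := Complex.abs_re_le_norm (conj (ψ s x) * (-Complex.I * T (ψ s) x))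
      rw [norm_mul, norm_mul, norm_neg, Complex.norm_I, one_mul, Complex.norm_conj] at h4
      nlinarith [sq_nonneg (‖ψ s x‖ - ‖T (ψ s) x‖)]
    · refine Eventually.of_forall fun s _ => (summable_sq _).add (summable_sq _)
    · have h4 : ∀ s : ℝ, ∑' x, (‖ψ s x‖ ^ 2 + ‖T (ψ s) x‖ ^ 2) = ‖ψ s‖ ^ 2 + ‖T (ψ s)‖ ^ 2 := by
        intro s
        rw [(summable_sq (ψ s)).tsum_add (summable_sq (T (ψ s))), norm_sq, norm_sq]
      simp_rw [h4]
      apply Continuous.intervalIntegrable
      exact (h.cont.norm.pow 2).add ((T.continuous.comp h.cont).norm.pow 2)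
    · exact Eventually.of_forall fun s _ => hsumD s
  rw [intervalIntegral.integral_zero] at h3
  simp_rw [h2] at h3
  have h4 := (hasSum_sq (ψ t)).sub (hasSum_sq (ψ 0))
  have h5 := h4.unique h3
  linarith

theorem IsSol.sub {T : E G →L[ℂ] E G} {V : G → ℝ} {ψ χ : ℝ → E G}
    (h1 : IsSol T V ψ) (h2 : IsSol T V χ) : IsSol T V (fun t => ψ t - χ t) := by
  refine ⟨h1.cont.sub h2.cont, fun t x => ?_⟩
  have h3 := (h1.deriv t x).sub (h2.deriv t x)
  refine h3.congr_deriv ?_
  rw [map_sub, coe_sub, coe_sub]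
  ring

theorem IsSol.add {T : E G →L[ℂ] E G} {V : G → ℝ} {ψ χ : ℝ → E G}
    (h1 : IsSol T V ψ) (h2 : IsSol T V χ) : IsSol T V (fun t => ψ t + χ t) := by
  refine ⟨h1.cont.add h2.cont, fun t x => ?_⟩
  have h3 := (h1.deriv t x).add (h2.deriv t x)
  refine h3.congr_deriv ?_
  rw [map_add, coe_add, coe_add]
  ring

theorem IsSol.smul {T : E G →L[ℂ] E G} {V : G → ℝ} {ψ : ℝ → E G} (c : ℂ)
    (h1 : IsSol T V ψ) : IsSol T V (fun t => c • ψ t) := by
  refine ⟨h1.cont.const_smul c, fun t x => ?_⟩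
  have h3 := (h1.deriv t x).const_mul c
  refine h3.congr_deriv ?_
  rw [map_smul, coe_smul, coe_smul]
  ring

theorem IsSol.shift_time {T : E G →L[ℂ] E G} {V : G → ℝ} {ψ : ℝ → E G}
    (h1 : IsSol T V ψ) (a : ℝ) : IsSol T V (fun t => ψ (t + a)) := by
  refine ⟨h1.cont.comp (by fun_prop), fun t x => ?_⟩
  exact (h1.deriv (t + a) x).comp_add_const t a

variable [Countable G]

/-- Uniqueness for the coordinatewise Schrödinger equation in `ℓ²`. -/
theorem IsSol.unique {T : E G →L[ℂ] E G} {V : G → ℝ} {ψ χ : ℝ → E G}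
    (hT : ∀ f g, ⟪T f, g⟫_ℂ = ⟪f, T g⟫_ℂ) (h1 : IsSol T V ψ) (h2 : IsSol T V χ)
    (h0 : ψ 0 = χ 0) (t : ℝ) : ψ t = χ t := by
  have h3 := (h1.sub h2).norm_eq hT t
  simp only [h0, sub_self, norm_zero, norm_eq_zero] at h3
  exact sub_eq_zero.1 h3

theorem IsSol.eq_UU {T : E G →L[ℂ] E G} {V : G → ℝ} {ψ : ℝ → E G}
    (hT : ∀ f g, ⟪T f, g⟫_ℂ = ⟪f, T g⟫_ℂ) (h : IsSol T V ψ) (t : ℝ) :
    ψ t = UU T V t (ψ 0) :=
  h.unique hT (isSol_UU T V (ψ 0)) (by rw [UU_zero]) t

section
variable {T : E G →L[ℂ] E G} (hT : ∀ f g, ⟪T f, g⟫_ℂ = ⟪f, T g⟫_ℂ) (V : G → ℝ)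
include hT

theorem norm_UU (t : ℝ) (f : E G) : ‖UU T V t f‖ = ‖f‖ := by
  have := (isSol_UU T V f).norm_eq hT t
  rwa [UU_zero] at this

theorem UU_add (t : ℝ) (f g : E G) : UU T V t (f + g) = UU T V t f + UU T V t g := by
  have h := ((isSol_UU T V f).add (isSol_UU T V g)).eq_UU hT t
  simp only [UU_zero] at h
  exact h.symm

theorem UU_smul (t : ℝ) (c : ℂ) (f : E G) : UU T V t (c • f) = c • UU T V t f := by
  have h := ((isSol_UU T V f).smul c).eq_UU hT t
  simp only [UU_zero] at h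
  exact h.symm

theorem UU_UU (s t : ℝ) (f : E G) : UU T V s (UU T V t f) = UU T V (s + t) f := by
  have h := ((isSol_UU T V f).shift_time t).eq_UU hT s
  simp only [zero_add] at h
  exact h.symm

end

end Pool.Agent.NoBal
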