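import Pool.Agent.Helper39_NoBal.Flow

/-!
# Symmetries of the unitary group
-/

set_option autoImplicit false

open scoped ENNReal InnerProductSpace ComplexConjugate Topology Interval
open Filter MeasureTheory Set

noncomputable section

namespace Pool.Agent.NoBal

variable {G : Type*} [AddCommGroup G]

/-- a bounded self-adjoint, real, translation invariant hopping operator -/
structure Hop (T : E G →L[ℂ] E G) : Prop where
  sa : ∀ f g, ⟪T f, g⟫_ℂ = ⟪f, T g⟫_ℂ
  real : ∀ f, T (star f) = star (T f)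
  inv : ∀ g f, T (sh g f) = sh g (T f)

omit [AddCommGroup G] in
theorem continuous_star_E : Continuous (fun f : E G => star f) := by
  have : Isometry (fun f : E G => star f) := by
    apply Isometry.of_dist_eq
    intro f g
    rw [dist_eq_norm, dist_eq_norm, ← star_sub, norm_star]
  exact this.continuous

variable {T : E G →L[ℂ] E G} {V : G → ℝ} {ψ : ℝ → E G}

theorem IsSol.star_neg (hT : Hop T) (h : IsSol T V ψ) : IsSol T V (fun t => star (ψ (-t))) := by
  refine ⟨continuous_star_E.comp (h.cont.comp continuous_neg), fun t x => ?_⟩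
  have h1 : HasDerivAt (fun s : ℝ => ψ (-s) x)
      (-(-Complex.I * (T (ψ (-t)) x + V x * ψ (-t) x))) t := by
    have h2 := (h.deriv (-t) x)
    have h3 : HasDerivAt (fun s : ℝ => ψ (-s) x)
      ((-1 : ℝ) • (-Complex.I * (T (ψ (-t)) x + V x * ψ (-t) x))) t :=
      h2.scomp t (hasDerivAt_neg t)
    refine h3.congr_deriv ?_
    rw [neg_smul, one_smul]
  have h2 : HasDerivAt (fun s : ℝ => conj (ψ (-s) x))
      (conj (-(-Complex.I * (T (ψ (-t)) x + V x * ψ (-t) x)))) t :=
    h1.star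
  refine h2.congr_deriv ?_
  rw [hT.real, coe_star, coe_star]
  simp only [map_neg, map_mul, map_add, Complex.conj_I, Complex.conj_ofReal]
  ring

theorem IsSol.shift (hT : Hop T) (h : IsSol T V ψ) (g : G) :
    IsSol T (shV g V) (fun t => sh g (ψ t)) := by
  refine ⟨(sh g).continuous.comp h.cont, fun t x => ?_⟩
  have h1 := h.deriv t (x - g)
  refine h1.congr_deriv ?_
  rw [hT.inv]
  rfl

variable [Countable G]

theorem star_UU (hT : Hop T) (V : G → ℝ) (t : ℝ) (f : E G) :
    star (UU T V t f) = UU T V (-t) (star f) := by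
  have h := ((isSol_UU T V f).star_neg hT).eq_UU hT.sa (-t)
  simpa [UU_zero] using h

theorem UU_sh (hT : Hop T) (g : G) (V : G → ℝ) (t : ℝ) (f : E G) :
    UU T (shV g V) t (sh g f) = sh g (UU T V t f) := by
  have h := ((isSol_UU T V f).shift hT g).eq_UU hT.sa t
  simp only [UU_zero] at h
  exact h.symm

/-- the unitary group as a continuous linear map -/
def UL (hT : Hop T) (V : G → ℝ) (t : ℝ) : E G →L[ℂ] E G :=
  LinearMap.mkContinuous
    { toFun := UU T V t, map_add' := UU_add hT.sa V t, map_smul' := UU_smul hT.sa V t } 1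
    (fun f => by
      show ‖UU T V t f‖ ≤ 1 * ‖f‖
      rw [norm_UU hT.sa, one_mul])

@[simp] theorem UL_apply (hT : Hop T) (V : G → ℝ) (t : ℝ) (f : E G) :
    UL hT V t f = UU T V t f := rfl

theorem norm_UL_apply (hT : Hop T) (V : G → ℝ) (t : ℝ) (f : E G) :
    ‖UL hT V t f‖ = ‖f‖ := norm_UU hT.sa V t f

theorem UL_add (hT : Hop T) (V : G → ℝ) (s t : ℝ) :
    UL hT V (s + t) = (UL hT V s).comp (UL hT V t) := by
  ext1 f
  exact (UU_UU hT.sa V s t f).symm

theorem UL_zero (hT : Hop T) (V : G → ℝ) : UL hT V 0 = ContinuousLinearMap.id ℂ (E G) := by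
  ext1 f
  exact UU_zero T V f

theorem UL_neg_UL (hT : Hop T) (V : G → ℝ) (t : ℝ) (f : E G) :
    UL hT V (-t) (UL hT V t f) = f := by
  simp only [UL_apply]
  rw [UU_UU hT.sa, neg_add_cancel, UU_zero]

theorem UL_UL_neg (hT : Hop T) (V : G → ℝ) (t : ℝ) (f : E G) :
    UL hT V t (UL hT V (-t) f) = f := by
  simp only [UL_apply]
  rw [UU_UU hT.sa, add_neg_cancel, UU_zero]

theorem inner_UL_UL (hT : Hop T) (V : G → ℝ) (t : ℝ) (f g : E G) :
    ⟪UL hT V t f, UL hT V t g⟫_ℂ = ⟪f, g⟫_ℂ := by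
  have h := LinearMap.norm_map_iff_inner_map_map (𝕜 := ℂ) (UL hT V t)
  exact (h.1 (fun x => norm_UL_apply hT V t x)) f g

theorem inner_UL (hT : Hop T) (V : G → ℝ) (t : ℝ) (f g : E G) :
    ⟪UL hT V t f, g⟫_ℂ = ⟪f, UL hT V (-t) g⟫_ℂ := by
  rw [← inner_UL_UL hT V t f (UL hT V (-t) g), UL_UL_neg]

theorem inner_UU (hT : Hop T) (V : G → ℝ) (t : ℝ) (f g : E G) :
    ⟪UU T V t f, g⟫_ℂ = ⟪f, UU T V (-t) g⟫_ℂ := inner_UL hT V t f g

end Pool.Agent.NoBal
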