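import Pool.Agent.Helper39_NoBal.Res2

/-!
# Continuity of the resolvent and the Plancherel identity
-/

set_option autoImplicit false

open scoped ENNReal InnerProductSpace ComplexConjugate Topology Interval FourierTransform
open Filter MeasureTheory Set

noncomputable section

namespace Pool.Agent.NoBal

variable {G : Type*} [AddCommGroup G]

/-- the point `a + iε` -/
def zz (ε a : ℝ) : ℂ := (a : ℂ) + (ε : ℂ) * Complex.I

@[simp] theorem zz_im (ε a : ℝ) : (zz ε a).im = ε := by simp [zz]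
@[simp] theorem zz_re (ε a : ℝ) : (zz ε a).re = a := by simp [zz]

theorem continuous_zz (ε : ℝ) : Continuous (zz ε) := by unfold zz; fun_prop

theorem abs_le_norm_zz (ε a : ℝ) : |a| ≤ ‖zz ε a‖ := by
  have := Complex.abs_re_le_norm (zz ε a)
  rwa [zz_re] at this

variable [Countable G] {T : E G →L[ℂ] E G} (hT : Hop T)

include hT

theorem continuous_RR {ε : ℝ} (hε : 0 < ε) :
    Continuous fun p : (G → ℝ) × ℝ × E G => RR T p.1 (zz ε p.2.1) p.2.2 := by
  suffices hmain : Continuous (fun p : (G → ℝ) × ℝ × E G =>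
      ∫ t in Ioi (0 : ℝ), Complex.exp (Complex.I * zz ε p.2.1 * t) • UU T p.1 t p.2.2) from
    hmain.const_smul Complex.I
  rw [continuous_iff_continuousAt]
  intro p₀
  refine continuousAt_of_dominated (bound := fun t => Real.exp (-ε * t) * (‖p₀.2.2‖ + 1)) ?_ ?_ ?_ ?_
  · refine Eventually.of_forall fun p => ?_
    apply Continuous.aestronglyMeasurable
    exact (by fun_prop : Continuous fun t : ℝ => Complex.exp (Complex.I * zz ε p.2.1 * t)).smul
      (continuous_UU_t T p.1 p.2.2)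
  · have h1 : ∀ᶠ p : (G → ℝ) × ℝ × E G in 𝓝 p₀, ‖p.2.2‖ < ‖p₀.2.2‖ + 1 := by
      have hc : Continuous fun p : (G → ℝ) × ℝ × E G => ‖p.2.2‖ := by fun_prop
      exact hc.continuousAt.eventually_lt continuousAt_const (by linarith)
    filter_upwards [h1] with p hp
    refine Eventually.of_forall fun t => ?_
    rw [norm_smul, norm_exp_Izt, norm_UU hT.sa, zz_im]
    exact mul_le_mul_of_nonneg_left hp.le (Real.exp_pos _).le
  · exact (exp_neg_integrableOn_Ioi 0 hε).mul_const _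
  · refine Eventually.of_forall fun t => ?_
    apply Continuous.continuousAt
    have h1 : Continuous fun p : (G → ℝ) × ℝ × E G => Complex.exp (Complex.I * zz ε p.2.1 * t) := by
      have := continuous_zz ε
      fun_prop
    have h2 : Continuous fun p : (G → ℝ) × ℝ × E G => UU T p.1 t p.2.2 :=
      (continuous_UU T).comp (continuous_fst.prodMk (continuous_const.prodMk
        (continuous_snd.comp continuous_snd)))
    exact h1.smul h2

theorem continuous_RR_t (V : G → ℝ) {ε : ℝ} (hε : 0 < ε) (f : E G) :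
    Continuous fun a : ℝ => RR T V (zz ε a) f := by
  have g : Continuous (fun a : ℝ => ((V, a, f) : (G → ℝ) × ℝ × E G)) := by fun_prop
  have h := Continuous.comp (continuous_RR hT hε) g
  have e : ((fun p : (G → ℝ) × ℝ × E G => RR T p.1 (zz ε p.2.1) p.2.2) ∘
      (fun a : ℝ => ((V, a, f) : (G → ℝ) × ℝ × E G))) = fun a : ℝ => RR T V (zz ε a) f := by
    funext a
    rfl
  rw [e] at h
  exact h

/-- decay of the resolvent on the domain of `V` -/
theorem decay_RR (V : G → ℝ) {ε : ℝ} (hε : 0 < ε) {f h : E G} (hh : ∀ x, h x = V x * f x) (a : ℝ) :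
    (1 + a ^ 2) * ‖RR T V (zz ε a) f‖ ^ 2 ≤
      (ε⁻¹ * ‖f‖) ^ 2 + (ε⁻¹ * ‖T f + h‖ + ‖f‖) ^ 2 := by
  have hz : 0 < (zz ε a).im := by rw [zz_im]; exact hε
  have h1 : SolR T V (zz ε a) (T f + h - zz ε a • f) f := by
    intro x
    rw [coe_sub, coe_add, coe_smul, hh x]
  have h2 := RR_unique hT V hz h1
  rw [RR_sub hT V hz, RR_smul hT V hz] at h2
  have h3 : zz ε a • RR T V (zz ε a) f = RR T V (zz ε a) (T f + h) - f := by
    rw [eq_sub_iff_add_eq, ← eq_sub_iff_add_eq']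
    exact h2
  have h4 := norm_RR_le hT V hz f
  have h5 := norm_RR_le hT V hz (T f + h)
  rw [zz_im] at h4 h5
  have h6 : |a| * ‖RR T V (zz ε a) f‖ ≤ ε⁻¹ * ‖T f + h‖ + ‖f‖ := by
    calc |a| * ‖RR T V (zz ε a) f‖ ≤ ‖zz ε a‖ * ‖RR T V (zz ε a) f‖ := by
          gcongr; exact abs_le_norm_zz ε a
      _ = ‖RR T V (zz ε a) (T f + h) - f‖ := by rw [← norm_smul, h3]
      _ ≤ ‖RR T V (zz ε a) (T f + h)‖ + ‖f‖ := norm_sub_le _ _
      _ ≤ _ := by gcongr
  have h7 : ‖RR T V (zz ε a) f‖ ^ 2 ≤ (ε⁻¹ * ‖f‖) ^ 2 := by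
    gcongr
  have h8 : (|a| * ‖RR T V (zz ε a) f‖) ^ 2 ≤ (ε⁻¹ * ‖T f + h‖ + ‖f‖) ^ 2 := by
    gcongr
  rw [mul_pow, sq_abs] at h8
  linarith

theorem integrable_RR_sq (V : G → ℝ) {ε : ℝ} (hε : 0 < ε) {f h : E G}
    (hh : ∀ x, h x = V x * f x) : Integrable fun a : ℝ => ‖RR T V (zz ε a) f‖ ^ 2 := by
  refine Integrable.mono' (integrable_inv_one_add_sq.const_mul
    ((ε⁻¹ * ‖f‖) ^ 2 + (ε⁻¹ * ‖T f + h‖ + ‖f‖) ^ 2)) ?_ ?_
  · exact ((continuous_RR_t hT V hε f).norm.pow 2).aestronglyMeasurable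
  · refine Eventually.of_forall fun a => ?_
    rw [Real.norm_of_nonneg (by positivity), ← div_eq_mul_inv, le_div_iff₀ (by positivity),
      mul_comm]
    exact decay_RR hT V hε hh a

/-- the regularised autocorrelation -/
theorem half_line (V : G → ℝ) {ε : ℝ} (hε : 0 < ε) (f : E G) (a : ℝ) :
    ∫ t in Ioi (0 : ℝ), Complex.exp (Complex.I * zz ε a * t) * ⟪f, UU T V t f⟫_ℂ =
      -Complex.I * ⟪f, RR T V (zz ε a) f⟫_ℂ := by
  have hz : 0 < (zz ε a).im := by rw [zz_im]; exact hε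
  have h1 := integral_inner (𝕜 := ℂ) (integrable_RR hT.sa V hz f) f
  have h2 : ∀ t : ℝ, ⟪f, Complex.exp (Complex.I * zz ε a * t) • UU T V t f⟫_ℂ =
      Complex.exp (Complex.I * zz ε a * t) * ⟪f, UU T V t f⟫_ℂ := by
    intro t
    rw [inner_smul_right]
  simp_rw [h2] at h1
  rw [h1]
  unfold RR
  rw [inner_smul_right, ← mul_assoc]
  simp

theorem integrable_auto (V : G → ℝ) {ε : ℝ} (hε : 0 < ε) (f : E G) :
    Integrable fun t : ℝ => ((Real.exp (-ε * |t|) : ℝ) : ℂ) * ⟪f, UU T V t f⟫_ℂ := by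
  have hc : Continuous fun t : ℝ => ((Real.exp (-ε * |t|) : ℝ) : ℂ) * ⟪f, UU T V t f⟫_ℂ := by
    have h1 := continuous_UU_t T V f
    exact (by fun_prop : Continuous fun t : ℝ => ((Real.exp (-ε * |t|) : ℝ) : ℂ)).mul
      (continuous_const.inner h1)
  have hb : ∀ t : ℝ, ‖((Real.exp (-ε * |t|) : ℝ) : ℂ) * ⟪f, UU T V t f⟫_ℂ‖ ≤
      Real.exp (-ε * |t|) * ‖f‖ ^ 2 := by
    intro t
    rw [norm_mul, Complex.norm_real, Real.norm_of_nonneg (Real.exp_pos _).le]
    have := norm_inner_le_norm (𝕜 := ℂ) f (UU T V t f)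
    rw [norm_UU hT.sa] at this
    rw [sq]
    gcongr
  have h1 : IntegrableOn (fun t : ℝ => Real.exp (-ε * |t|) * ‖f‖ ^ 2) (Ioi 0) := by
    have h2 := (exp_neg_integrableOn_Ioi 0 hε).mul_const (‖f‖ ^ 2)
    refine IntegrableOn.congr_fun h2 (fun t ht => ?_) measurableSet_Ioi
    rw [abs_of_pos ht]
  have h3 : IntegrableOn (fun t : ℝ => Real.exp (-ε * |t|) * ‖f‖ ^ 2) (Iic 0) := by
    have h2 := (integrableOn_exp_mul_Iic hε 0).mul_const (‖f‖ ^ 2)
    refine IntegrableOn.congr_fun h2 (fun t ht => ?_) measurableSet_Iic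
    rw [abs_of_nonpos ht]
    ring_nf
  have h4 : Integrable (fun t : ℝ => Real.exp (-ε * |t|) * ‖f‖ ^ 2) := by
    rw [← integrableOn_univ, ← Iic_union_Ioi (a := (0:ℝ))]
    exact h3.union h1
  exact h4.mono' hc.aestronglyMeasurable (Eventually.of_forall hb)

theorem fourier_auto (V : G → ℝ) {ε : ℝ} (hε : 0 < ε) (f : E G) (w : ℝ) :
    𝓕 (fun t : ℝ => ((Real.exp (-ε * |t|) : ℝ) : ℂ) * ⟪f, UU T V t f⟫_ℂ) w =
      ((2 * (ε * ‖RR T V (zz ε (-2 * Real.pi * w)) f‖ ^ 2) : ℝ) : ℂ) := by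
  set a : ℝ := -2 * Real.pi * w with ha
  have hz : 0 < (zz ε a).im := by rw [zz_im]; exact hε
  rw [Real.fourier_real_eq_integral_exp_smul]
  set F : ℝ → ℂ := fun v => Complex.exp (↑(-2 * Real.pi * v * w) * Complex.I) •
    (((Real.exp (-ε * |v|) : ℝ) : ℂ) * ⟪f, UU T V v f⟫_ℂ) with hF
  have hint : Integrable F := by
    have h1 := integrable_auto hT V hε f
    refine Integrable.bdd_mul h1 (c := 1) ?_ ?_
    · apply Continuous.aestronglyMeasurable
      fun_prop
    · refine Eventually.of_forall fun v => ?_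
      rw [Complex.norm_exp_ofReal_mul_I]
  rw [← intervalIntegral.integral_Iic_add_Ioi (b := (0 : ℝ)) hint.integrableOn hint.integrableOn]
  have e1 : ∫ t in Ioi (0 : ℝ), F t = -Complex.I * ⟪f, RR T V (zz ε a) f⟫_ℂ := by
    rw [← half_line hT V hε f a]
    refine setIntegral_congr_fun measurableSet_Ioi fun t ht => ?_
    simp only [hF]
    rw [smul_eq_mul, ← mul_assoc, Complex.ofReal_exp, ← Complex.exp_add, abs_of_pos ht]
    congr 2
    rw [ha, zz]
    push_cast
    linear_combination (-(ε : ℂ) * t) * Complex.I_sq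
  have e2 : ∫ t in Iic (0 : ℝ), F t = conj (-Complex.I * ⟪f, RR T V (zz ε a) f⟫_ℂ) := by
    rw [← e1, ← integral_conj]
    have h1 := integral_comp_neg_Ioi (0 : ℝ) F
    rw [neg_zero] at h1
    rw [← h1]
    refine setIntegral_congr_fun measurableSet_Ioi fun t ht => ?_
    simp only [hF]
    rw [smul_eq_mul, smul_eq_mul, map_mul, map_mul, Complex.conj_ofReal, abs_neg,
      ← Complex.exp_conj, map_mul, Complex.conj_ofReal, Complex.conj_I]
    congr 1
    · congr 1
      push_cast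
      ring
    · congr 1
      rw [inner_conj_symm, inner_UU hT]
  rw [e2, e1, add_comm, Complex.add_conj]
  congr 2
  have h2 := im_inner_RR hT V hz f
  rw [zz_im] at h2
  rw [← h2]
  simp

theorem planch_dom (V : G → ℝ) {ε : ℝ} (hε : 0 < ε) {f h : E G}
    (hh : ∀ x, h x = V x * f x) :
    ∫ a : ℝ, ‖RR T V (zz ε a) f‖ ^ 2 = Real.pi / ε * ‖f‖ ^ 2 := by
  have hI := integrable_RR_sq hT V hε hh
  have hc : Continuous fun t : ℝ => ((Real.exp (-ε * |t|) : ℝ) : ℂ) * ⟪f, UU T V t f⟫_ℂ := by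
    have h1 := continuous_UU_t T V f
    exact (by fun_prop : Continuous fun t : ℝ => ((Real.exp (-ε * |t|) : ℝ) : ℂ)).mul
      (continuous_const.inner h1)
  have hpi : (-2 * Real.pi) ≠ 0 := by
    have := Real.pi_pos
    nlinarith
  have hI2 : Integrable fun w : ℝ => 2 * (ε * ‖RR T V (zz ε (-2 * Real.pi * w)) f‖ ^ 2) := by
    exact ((hI.comp_mul_left' hpi).const_mul ε).const_mul 2
  have hF : 𝓕 (fun t : ℝ => ((Real.exp (-ε * |t|) : ℝ) : ℂ) * ⟪f, UU T V t f⟫_ℂ) = fun w : ℝ =>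
      ((2 * (ε * ‖RR T V (zz ε (-2 * Real.pi * w)) f‖ ^ 2) : ℝ) : ℂ) := by
    funext w
    exact fourier_auto hT V hε f w
  have h1 := (integrable_auto hT V hε f).fourierInv_fourier_eq (by rw [hF]; exact hI2.ofReal)
    (v := 0) hc.continuousAt
  rw [hF, Real.fourierInv_eq'] at h1
  simp only [inner_zero_right, mul_zero, Complex.ofReal_zero, zero_mul, Complex.exp_zero, one_smul,
    abs_zero, Real.exp_zero, Complex.ofReal_one, one_mul, UU_zero] at h1
  rw [integral_complex_ofReal] at h1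
  have h2 : ⟪f, f⟫_ℂ = ((‖f‖ ^ 2 : ℝ) : ℂ) := by
    rw [inner_self_eq_norm_sq_to_K]; norm_cast
  rw [h2] at h1
  have h3 := Complex.ofReal_injective h1
  have h4 := Measure.integral_comp_mul_left (fun a => 2 * (ε * ‖RR T V (zz ε a) f‖ ^ 2))
    (-2 * Real.pi)
  rw [h3, integral_const_mul, integral_const_mul, smul_eq_mul, abs_inv, abs_mul, abs_neg, abs_two,
    abs_of_pos Real.pi_pos] at h4
  have hp := Real.pi_pos
  field_simp at h4 ⊢
  linarith

end Pool.Agent.NoBal
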