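import Pool.Agent.Helper39_NoBal.Planch

/-!
# The Plancherel identity for all vectors
-/

set_option autoImplicit false

open scoped ENNReal InnerProductSpace ComplexConjugate Topology Interval
open Filter MeasureTheory Set

noncomputable section

namespace Pool.Agent.NoBal

variable {G : Type*} [AddCommGroup G] [Countable G] {T : E G →L[ℂ] E G} (hT : Hop T)

omit [AddCommGroup G] [Countable G] in
/-- vectors approximated by vectors in the domain of `V` -/
theorem exists_approx [DecidableEq G] (V : G → ℝ) (f : E G) :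
    ∃ u : ℕ → E G, (∀ n, ∃ h : E G, ∀ x, h x = V x * u n x) ∧ Tendsto u atTop (𝓝 f) := by
  have h1 : f ∈ closure {u : E G | ∃ h : E G, ∀ x, h x = V x * u x} := by
    refine mem_closure_of_tendsto (hasSum_del f) (Eventually.of_forall fun s => ?_)
    refine ⟨∑ x ∈ s, (V x * f x) • del x, fun x => ?_⟩
    rw [coe_sum, coe_sum, Finset.mul_sum]
    refine Finset.sum_congr rfl fun y _ => ?_
    rw [coe_smul, coe_smul, del_apply]
    split_ifs with h
    · subst h; ring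
    · ring
  obtain ⟨u, hu1, hu2⟩ := mem_closure_iff_seq_limit.1 h1
  exact ⟨u, hu1, hu2⟩

theorem enorm_sq_ofReal {F : Type*} [NormedAddCommGroup F] (u : F) :
    ‖u‖ₑ ^ 2 = ENNReal.ofReal (‖u‖ ^ 2) := by
  rw [← ofReal_norm, ENNReal.ofReal_pow (norm_nonneg _)]

include hT

theorem planch_dom' (V : G → ℝ) {ε : ℝ} (hε : 0 < ε) {f h : E G}
    (hh : ∀ x, h x = V x * f x) :
    ∫⁻ a : ℝ, ‖RR T V (zz ε a) f‖ₑ ^ 2 = ENNReal.ofReal (Real.pi / ε * ‖f‖ ^ 2) := by
  rw [← planch_dom hT V hε hh, ofReal_integral_eq_lintegral_ofReal (integrable_RR_sq hT V hε hh)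
    (Eventually.of_forall fun a => by positivity)]
  refine lintegral_congr fun a => ?_
  rw [enorm_sq_ofReal]

theorem planch_le (V : G → ℝ) {ε : ℝ} (hε : 0 < ε) (f : E G) :
    ∫⁻ a : ℝ, ‖RR T V (zz ε a) f‖ₑ ^ 2 ≤ ENNReal.ofReal (Real.pi / ε * ‖f‖ ^ 2) := by
  classical
  obtain ⟨u, hu1, hu2⟩ := exists_approx V f
  have h1 : ∀ a : ℝ, ‖RR T V (zz ε a) f‖ₑ ^ 2 =
      liminf (fun n => ‖RR T V (zz ε a) (u n)‖ₑ ^ 2) atTop := by
    intro a
    have hz : 0 < (zz ε a).im := by rw [zz_im]; exact hε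
    have h2 : Tendsto (fun n => ‖RR T V (zz ε a) (u n)‖ₑ ^ 2) atTop
        (𝓝 (‖RR T V (zz ε a) f‖ₑ ^ 2)) := by
      have h3 : Tendsto (fun n => RL hT V hz (u n)) atTop (𝓝 (RL hT V hz f)) :=
        ((RL hT V hz).continuous.tendsto f).comp hu2
      have h4 := (continuous_enorm.tendsto _).comp h3
      exact ((ENNReal.continuous_pow 2).tendsto _).comp h4
    exact h2.liminf_eq.symm
  simp_rw [h1]
  refine (lintegral_liminf_le fun n => ?_).trans ?_
  · exact ((continuous_RR_t hT V hε (u n)).enorm.measurable).pow_const 2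
  · have h5 : ∀ n, ∫⁻ a : ℝ, ‖RR T V (zz ε a) (u n)‖ₑ ^ 2 =
        ENNReal.ofReal (Real.pi / ε * ‖u n‖ ^ 2) := by
      intro n
      obtain ⟨h, hh⟩ := hu1 n
      exact planch_dom' hT V hε hh
    simp_rw [h5]
    have h6 : Tendsto (fun n => ENNReal.ofReal (Real.pi / ε * ‖u n‖ ^ 2)) atTop
        (𝓝 (ENNReal.ofReal (Real.pi / ε * ‖f‖ ^ 2))) := by
      exact ENNReal.tendsto_ofReal ((hu2.norm.pow 2).const_mul _)
    rw [h6.liminf_eq]

omit [AddCommGroup G] [Countable G] hT in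
theorem eLpNorm_two_sq {F : ℝ → E G} : eLpNorm F 2 volume ^ 2 = ∫⁻ a, ‖F a‖ₑ ^ 2 := by
  have h := eLpNorm_nnreal_pow_eq_lintegral (f := F) (μ := (volume : Measure ℝ)) (p := 2)
    (by norm_num)
  simpa using h

theorem planch_ge (V : G → ℝ) {ε : ℝ} (hε : 0 < ε) (f : E G) :
    ENNReal.ofReal (Real.pi / ε * ‖f‖ ^ 2) ≤ ∫⁻ a : ℝ, ‖RR T V (zz ε a) f‖ₑ ^ 2 := by
  classical
  obtain ⟨u, hu1, hu2⟩ := exists_approx V f
  have hpe : 0 ≤ Real.pi / ε := by positivity
  set c : ℝ := Real.sqrt (Real.pi / ε) with hc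
  have hc0 : 0 ≤ c := Real.sqrt_nonneg _
  have hc2 : c ^ 2 = Real.pi / ε := Real.sq_sqrt hpe
  set N : E G → ℝ≥0∞ := fun g => eLpNorm (fun a => RR T V (zz ε a) g) 2 volume with hN
  have hN2 : ∀ g, N g ^ 2 = ∫⁻ a : ℝ, ‖RR T V (zz ε a) g‖ₑ ^ 2 := fun g => eLpNorm_two_sq
  have hNle : ∀ g, N g ≤ ENNReal.ofReal (c * ‖g‖) := by
    intro g
    have h1 := planch_le hT V hε g
    rw [← hN2, ← hc2, ← mul_pow, ENNReal.ofReal_pow (by positivity)] at h1
    exact (ENNReal.pow_le_pow_left_iff two_ne_zero).1 h1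
  have hNu : ∀ n, N (u n) = ENNReal.ofReal (c * ‖u n‖) := by
    intro n
    obtain ⟨h, hh⟩ := hu1 n
    have h1 := planch_dom' hT V hε hh
    rw [← hN2, ← hc2, ← mul_pow, ENNReal.ofReal_pow (by positivity)] at h1
    exact le_antisymm ((ENNReal.pow_le_pow_left_iff two_ne_zero).1 h1.le)
      ((ENNReal.pow_le_pow_left_iff two_ne_zero).1 h1.ge)
  have hadd : ∀ n, N (u n) ≤ N f + ENNReal.ofReal (c * ‖u n - f‖) := by
    intro n
    have h1 : (fun a => RR T V (zz ε a) (u n)) =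
        (fun a => RR T V (zz ε a) f) + fun a => RR T V (zz ε a) (u n - f) := by
      funext a
      have hz : 0 < (zz ε a).im := by rw [zz_im]; exact hε
      rw [Pi.add_apply, ← RR_add hT V hz]
      congr 1
      abel
    have h2 : N (u n) ≤ N f + N (u n - f) := by
      simp only [hN]
      rw [h1]
      exact eLpNorm_add_le (continuous_RR_t hT V hε f).aestronglyMeasurable
        (continuous_RR_t hT V hε (u n - f)).aestronglyMeasurable (by norm_num)
    exact h2.trans (add_le_add le_rfl (hNle _))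
  have hlim : ENNReal.ofReal (c * ‖f‖) ≤ N f + ENNReal.ofReal (c * ‖f - f‖) := by
    refine le_of_tendsto_of_tendsto (f := fun n => N (u n))
      (g := fun n => N f + ENNReal.ofReal (c * ‖u n - f‖)) ?_ ?_ (Eventually.of_forall hadd)
      (b := atTop)
    · simp_rw [hNu]
      exact ENNReal.tendsto_ofReal (hu2.norm.const_mul c)
    · exact tendsto_const_nhds.add
        (ENNReal.tendsto_ofReal ((hu2.sub_const f).norm.const_mul c))
  rw [sub_self, norm_zero, mul_zero, ENNReal.ofReal_zero, add_zero] at hlim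
  rw [← hN2, ← hc2, ← mul_pow, ENNReal.ofReal_pow (by positivity)]
  gcongr

/-- **Plancherel identity**: `∫ ε ‖(H - a - iε)⁻¹ f‖² da = π ‖f‖²`. -/
theorem planch (V : G → ℝ) {ε : ℝ} (hε : 0 < ε) (f : E G) :
    ∫⁻ a : ℝ, ENNReal.ofReal ε * ‖RR T V (zz ε a) f‖ₑ ^ 2 = ENNReal.ofReal Real.pi * ‖f‖ₑ ^ 2 := by
  rw [lintegral_const_mul' _ _ ENNReal.ofReal_ne_top,
    le_antisymm (planch_le hT V hε f) (planch_ge hT V hε f), ← ENNReal.ofReal_mul hε.le,
    enorm_sq_ofReal, ← ENNReal.ofReal_mul Real.pi_pos.le]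
  congr 1
  field_simp

end Pool.Agent.NoBal
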