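import Pool.Agent.Helper39_NoBal.Planch2

/-!
# The i.i.d. potential; covariant families; the trace identity
-/

set_option autoImplicit false

open scoped ENNReal InnerProductSpace ComplexConjugate Topology Interval
open Filter MeasureTheory Set

noncomputable section

namespace Pool.Agent.NoBal

variable {G : Type*}

/-! ### strong measurability in `ℓ²(G)` -/

section meas
variable [Countable G] [DecidableEq G] {Ω : Type*} [MeasurableSpace Ω]

theorem sm_apply {F : Type*} [NormedAddCommGroup F] [NormedSpace ℂ F] {D : Ω → (E G →L[ℂ] F)}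
    (hD : ∀ y, StronglyMeasurable (fun ω => D ω (del y)))
    {u : Ω → E G} (hu : StronglyMeasurable u) : StronglyMeasurable (fun ω => D ω (u ω)) := by
  have h1 : ∀ s : Finset G, StronglyMeasurable (fun ω => ∑ y ∈ s, u ω y • D ω (del y)) := by
    intro s
    refine Finset.stronglyMeasurable_fun_sum s fun y _ => ?_
    exact ((continuous_coord y).comp_stronglyMeasurable hu).smul (hD y)
  refine stronglyMeasurable_of_tendsto (u := (atTop : Filter (Finset G))) h1 ?_
  rw [tendsto_pi_nhds]
  intro ω
  have h2 := (hasSum_del (u ω)).mapL (D ω)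
  have h3 : (fun y => D ω (u ω y • del y)) = fun y => u ω y • D ω (del y) := by
    funext y; rw [map_smul]
  rw [h3] at h2
  exact h2

theorem sm_of_coord {u : Ω → E G} (hu : ∀ x, Measurable (fun ω => u ω x)) :
    StronglyMeasurable u := by
  have h1 : ∀ s : Finset G, StronglyMeasurable (fun ω => ∑ y ∈ s, u ω y • (del y : E G)) := by
    intro s
    refine Finset.stronglyMeasurable_fun_sum s fun y _ => ?_
    exact (hu y).stronglyMeasurable.smul_const _
  refine stronglyMeasurable_of_tendsto (u := (atTop : Filter (Finset G))) h1 ?_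
  rw [tendsto_pi_nhds]
  intro ω
  exact hasSum_del (u ω)

omit [Countable G] [DecidableEq G] in
theorem measurable_coord {u : Ω → E G} (hu : StronglyMeasurable u) (x : G) :
    Measurable (fun ω => u ω x) :=
  ((continuous_coord x).comp_stronglyMeasurable hu).measurable

end meas

/-! ### transposition -/

/-- transpose of a bounded operator -/
def tr (A : E G →L[ℂ] E G) : E G →L[ℂ] E G :=
  LinearMap.mkContinuous
    { toFun := fun f => star (ContinuousLinearMap.adjoint A (star f))
      map_add' := fun f g => by rw [star_add, map_add, star_add]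
      map_smul' := fun c f => by
        rw [star_smul, map_smul, star_smul, star_star, RingHom.id_apply] } ‖A‖
    (fun f => by
      show ‖star (ContinuousLinearMap.adjoint A (star f))‖ ≤ ‖A‖ * ‖f‖
      rw [norm_star]
      refine (ContinuousLinearMap.le_opNorm _ _).trans ?_
      rw [norm_star, LinearIsometryEquiv.norm_map])

theorem tr_apply (A : E G →L[ℂ] E G) (f : E G) :
    tr A f = star (ContinuousLinearMap.adjoint A (star f)) := rfl

theorem norm_tr_le (A : E G →L[ℂ] E G) : ‖tr A‖ ≤ ‖A‖ :=
  LinearMap.mkContinuous_norm_le _ (norm_nonneg _) _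

theorem inner_tr (A : E G →L[ℂ] E G) (f g : E G) : ⟪star g, tr A f⟫_ℂ = ⟪star f, A g⟫_ℂ := by
  rw [tr_apply, inner_star_star, ContinuousLinearMap.adjoint_inner_left]

theorem tr_comp (A B : E G →L[ℂ] E G) : tr (A.comp B) = (tr B).comp (tr A) := by
  ext1 f
  rw [ContinuousLinearMap.comp_apply, tr_apply, tr_apply, tr_apply, star_star,
    ContinuousLinearMap.adjoint_comp, ContinuousLinearMap.comp_apply]

section
variable [DecidableEq G]

theorem tr_del (A : E G →L[ℂ] E G) (x y : G) : tr A (del y) x = A (del x) y := by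
  have h := inner_tr A (del y) (del x)
  rw [star_del, star_del, inner_del_left, inner_del_left] at h
  exact h

theorem tr_ext {A B : E G →L[ℂ] E G} (h : ∀ x y, A (del x) y = B (del y) x) : A = tr B := by
  apply clm_ext
  intro x
  ext y
  rw [h, tr_del]

end

/-! ### the probability space -/

/-- the law of an i.i.d. potential -/
abbrev PP (G : Type*) (ν : Measure ℝ) [IsProbabilityMeasure ν] : Measure (G → ℝ) :=
  Measure.infinitePi (fun _ : G => ν)

variable (ν : Measure ℝ) [IsProbabilityMeasure ν]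

theorem mp_resample [DecidableEq G] (x₀ : G) :
    MeasurePreserving (fun p : (G → ℝ) × ℝ => Function.update p.1 x₀ p.2) ((PP G ν).prod ν)
      (PP G ν) := by
  have hm : Measurable (fun p : (G → ℝ) × ℝ => Function.update p.1 x₀ p.2) := measurable_update'
  refine ⟨hm, ?_⟩
  apply Measure.eq_infinitePi
  intro s t ht
  rw [Measure.map_apply hm (MeasurableSet.pi s.countable_toSet fun i _ => ht i)]
  by_cases h0 : x₀ ∈ s
  · have e : (fun p : (G → ℝ) × ℝ => Function.update p.1 x₀ p.2) ⁻¹' Set.pi (↑s) t =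
        (Set.pi (↑(s.erase x₀)) t) ×ˢ (t x₀) := by
      ext p
      simp only [Set.mem_preimage, Set.mem_pi, Set.mem_prod, Finset.mem_coe, Finset.mem_erase]
      constructor
      · intro h
        refine ⟨fun i hi => ?_, ?_⟩
        · have := h i hi.2
          rwa [Function.update_of_ne hi.1] at this
        · have := h x₀ h0
          rwa [Function.update_self] at this
      · rintro ⟨h1, h2⟩ i hi
        by_cases hix : i = x₀
        · subst hix; rwa [Function.update_self]
        · rw [Function.update_of_ne hix]; exact h1 i ⟨hix, hi⟩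
    rw [e, Measure.prod_prod, Measure.infinitePi_pi _ (fun i _ => ht i),
      Finset.prod_erase_mul s (fun i => ν (t i)) h0]
  · have e : (fun p : (G → ℝ) × ℝ => Function.update p.1 x₀ p.2) ⁻¹' Set.pi (↑s) t =
        (Set.pi (↑s) t) ×ˢ Set.univ := by
      ext p
      simp only [Set.mem_preimage, Set.mem_pi, Set.mem_prod, Finset.mem_coe, Set.mem_univ, and_true]
      refine forall₂_congr fun i hi => ?_
      have hne : i ≠ x₀ := by rintro rfl; exact h0 hi
      rw [Function.update_of_ne hne]
    rw [e, Measure.prod_prod, Measure.infinitePi_pi _ (fun i _ => ht i), measure_univ, mul_one]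

theorem lintegral_resample [DecidableEq G] (x₀ : G) {F : (G → ℝ) → ℝ≥0∞} (hF : Measurable F) :
    ∫⁻ V, ∫⁻ v, F (Function.update V x₀ v) ∂ν ∂(PP G ν) = ∫⁻ V, F V ∂(PP G ν) := by
  have h := mp_resample (G := G) ν x₀
  have h2 := lintegral_prod (μ := PP G ν) (ν := ν)
    (fun p : (G → ℝ) × ℝ => F (Function.update p.1 x₀ p.2))
    ((hF.comp h.measurable).aemeasurable)
  rw [← h.lintegral_comp hF, h2]

section shift
variable [AddCommGroup G]

theorem mp_shV (g : G) : MeasurePreserving (shV g) (PP G ν) (PP G ν) := by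
  refine ⟨?_, ?_⟩
  · unfold shV
    fun_prop
  · exact Measure.map_infinitePi_infinitePi_of_inj (P := fun _ : G => ν)
      (f := fun x : G => x - g) (sub_left_injective)

/-- a bounded measurable translation covariant family of operators -/
structure Cov (D : (G → ℝ) → (E G →L[ℂ] E G)) : Prop where
  meas : ∀ f, StronglyMeasurable (fun V => D V f)
  cov : ∀ g V f, D (shV g V) (sh g f) = sh g (D V f)
  bdd : ∃ C, ∀ V, ‖D V‖ ≤ C

variable [Countable G]

omit [Countable G] in
theorem Cov.add {D D' : (G → ℝ) → (E G →L[ℂ] E G)} (h : Cov D) (h' : Cov D') :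
    Cov (fun V => D V + D' V) := by
  refine ⟨fun f => (h.meas f).add (h'.meas f), fun g V f => ?_, ?_⟩
  · simp only [_root_.add_apply, h.cov, h'.cov, map_add]
  · obtain ⟨C, hC⟩ := h.bdd
    obtain ⟨C', hC'⟩ := h'.bdd
    exact ⟨C + C', fun V => (norm_add_le _ _).trans (add_le_add (hC V) (hC' V))⟩

omit [Countable G] in
theorem Cov.sub {D D' : (G → ℝ) → (E G →L[ℂ] E G)} (h : Cov D) (h' : Cov D') :
    Cov (fun V => D V - D' V) := by
  refine ⟨fun f => (h.meas f).sub (h'.meas f), fun g V f => ?_, ?_⟩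
  · simp only [_root_.sub_apply, h.cov, h'.cov, map_sub]
  · obtain ⟨C, hC⟩ := h.bdd
    obtain ⟨C', hC'⟩ := h'.bdd
    exact ⟨C + C', fun V => (norm_sub_le _ _).trans (add_le_add (hC V) (hC' V))⟩

omit [Countable G] in
theorem Cov.smul {D : (G → ℝ) → (E G →L[ℂ] E G)} (c : ℂ) (h : Cov D) :
    Cov (fun V => c • D V) := by
  refine ⟨fun f => (h.meas f).const_smul c, fun g V f => ?_, ?_⟩
  · simp only [_root_.smul_apply, h.cov, map_smul]
  · obtain ⟨C, hC⟩ := h.bdd
    exact ⟨‖c‖ * C, fun V => by
      rw [norm_smul]; exact mul_le_mul_of_nonneg_left (hC V) (norm_nonneg _)⟩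

theorem Cov.comp [DecidableEq G] {D D' : (G → ℝ) → (E G →L[ℂ] E G)} (h : Cov D) (h' : Cov D') :
    Cov (fun V => (D V).comp (D' V)) := by
  refine ⟨fun f => sm_apply (fun y => h.meas (del y)) (h'.meas f), fun g V f => ?_, ?_⟩
  · simp only [ContinuousLinearMap.comp_apply, h.cov, h'.cov]
  · obtain ⟨C, hC⟩ := h.bdd
    obtain ⟨C', hC'⟩ := h'.bdd
    refine ⟨C * C', fun V => (ContinuousLinearMap.opNorm_comp_le _ _).trans ?_⟩
    exact mul_le_mul (hC V) (hC' V) (norm_nonneg _) ((norm_nonneg _).trans (hC V))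

theorem Cov.tr [DecidableEq G] {D : (G → ℝ) → (E G →L[ℂ] E G)} (h : Cov D) :
    Cov (fun V => tr (D V)) := by
  refine ⟨fun f => ?_, fun g V f => ?_, ?_⟩
  · apply sm_of_coord
    intro x
    have e : (fun V => NoBal.tr (D V) f x) = fun V => ⟪star f, D V (del x)⟫_ℂ := by
      funext V
      rw [← inner_tr, star_del, inner_del_left]
    rw [e]
    exact (stronglyMeasurable_const.inner (h.meas (del x))).measurable
  · ext x
    have e : ∀ (V : G → ℝ) (f : E G) (x : G), NoBal.tr (D V) f x = ⟪star f, D V (del x)⟫_ℂ := by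
      intro V f x
      rw [← inner_tr, star_del, inner_del_left]
    rw [sh_apply, e, e, star_sh, inner_sh]
    congr 1
    rw [← h.cov, sh_del, shV_shV, neg_add_cancel, shV_zero]
    congr 2
    abel
  · obtain ⟨C, hC⟩ := h.bdd
    exact ⟨C, fun V => (norm_tr_le _).trans (hC V)⟩

omit [AddCommGroup G] [Countable G] in
theorem enorm_sq_tsum (f : E G) : ‖f‖ₑ ^ 2 = ∑' x, ‖f x‖ₑ ^ 2 := by
  rw [enorm_sq_ofReal, norm_sq, ENNReal.ofReal_tsum_of_nonneg (fun x => by positivity)
    (summable_sq f)]
  refine tsum_congr fun x => ?_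
  rw [enorm_sq_ofReal]

/-- **trace identity** -/
theorem Cov.trace [DecidableEq G] {D : (G → ℝ) → (E G →L[ℂ] E G)} (h : Cov D) :
    ∫⁻ V, ‖D V (del 0)‖ₑ ^ 2 ∂(PP G ν) = ∫⁻ V, ‖NoBal.tr (D V) (del 0)‖ₑ ^ 2 ∂(PP G ν) := by
  simp_rw [enorm_sq_tsum]
  have hm1 : ∀ x, Measurable (fun V => ‖D V (del 0) x‖ₑ ^ 2) := fun x =>
    ((measurable_coord (h.meas (del 0)) x).enorm).pow_const 2
  have hm2 : ∀ x, Measurable (fun V => ‖NoBal.tr (D V) (del 0) x‖ₑ ^ 2) := fun x =>
    ((measurable_coord (h.tr.meas (del 0)) x).enorm).pow_const 2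
  rw [lintegral_tsum (fun x => (hm1 x).aemeasurable),
    lintegral_tsum (fun x => (hm2 x).aemeasurable), ← (Equiv.neg G).tsum_eq]
  refine tsum_congr fun x => ?_
  rw [← (mp_shV ν (Equiv.neg G x)).lintegral_comp (hm1 _)]
  refine lintegral_congr fun V => ?_
  have h1 := h.cov (Equiv.neg G x) V (del x)
  rw [sh_del] at h1
  simp only [Equiv.neg_apply, add_neg_cancel] at h1 ⊢
  rw [h1, sh_apply, sub_self, tr_del]

end shift

end Pool.Agent.NoBal
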