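import Pool.Agent.Helper39_NoBal.Flow2

/-!
# The resolvent of `T + V`
-/

set_option autoImplicit false

open scoped ENNReal InnerProductSpace ComplexConjugate Topology Interval
open Filter MeasureTheory Set

noncomputable section

namespace Pool.Agent.NoBal

variable {G : Type*}

/-- the resolvent equation `(T + V - w) u = f`, coordinatewise -/
def SolR (T : E G →L[ℂ] E G) (V : G → ℝ) (w : ℂ) (f u : E G) : Prop :=
  ∀ x, T u x + V x * u x - w * u x = f x

variable {T : E G →L[ℂ] E G} {V : G → ℝ} {w : ℂ} {f g u v : E G}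

theorem SolR.sub (h1 : SolR T V w f u) (h2 : SolR T V w g v) : SolR T V w (f - g) (u - v) := by
  intro x
  rw [map_sub, coe_sub, coe_sub, coe_sub, ← h1 x, ← h2 x]
  ring

theorem SolR.add (h1 : SolR T V w f u) (h2 : SolR T V w g v) : SolR T V w (f + g) (u + v) := by
  intro x
  rw [map_add, coe_add, coe_add, coe_add, ← h1 x, ← h2 x]
  ring

theorem SolR.smul (c : ℂ) (h1 : SolR T V w f u) : SolR T V w (c • f) (c • u) := by
  intro x
  rw [map_smul, coe_smul, coe_smul, coe_smul, ← h1 x]
  ring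

/-- change of the spectral parameter -/
theorem SolR.change (h1 : SolR T V w f u) (w' : ℂ) : SolR T V w' (f + (w - w') • u) u := by
  intro x
  rw [coe_add, coe_smul, ← h1 x]
  ring

theorem SolR.im_inner (hT : ∀ f g, ⟪T f, g⟫_ℂ = ⟪f, T g⟫_ℂ) (h : SolR T V w f u) :
    (⟪u, f⟫_ℂ).im = -(w.im * ‖u‖ ^ 2) := by
  have e : ∀ x, (f - T u + w • u) x = V x * u x := by
    intro x
    rw [coe_add, coe_sub, coe_smul, ← h x]
    ring
  have h1 : (⟪u, f - T u + w • u⟫_ℂ).im = 0 := by
    have h2 := lp.hasSum_inner (𝕜 := ℂ) u (f - T u + w • u)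
    have h3 := Complex.imCLM.hasSum h2
    have h4 : ∀ x, Complex.imCLM (⟪u x, (f - T u + w • u) x⟫_ℂ) = 0 := by
      intro x
      rw [RCLike.inner_apply, e x]
      show ((V x : ℂ) * u x * conj (u x)).im = 0
      rw [mul_assoc, Complex.mul_conj, ← Complex.ofReal_mul, Complex.ofReal_im]
    simp only [h4] at h3
    exact (h3.unique hasSum_zero)
  rw [inner_add_right, inner_sub_right, inner_smul_right] at h1
  have h5 : (⟪u, T u⟫_ℂ).im = 0 := by
    have h8 : conj ⟪u, T u⟫_ℂ = ⟪u, T u⟫_ℂ := by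
      rw [inner_conj_symm, hT]
    exact Complex.conj_eq_iff_im.1 h8
  rw [Complex.add_im, Complex.sub_im, h5] at h1
  have h6 : (w * ⟪u, u⟫_ℂ).im = w.im * ‖u‖ ^ 2 := by
    have h7 : ⟪u, u⟫_ℂ = ((‖u‖ ^ 2 : ℝ) : ℂ) := by
      rw [inner_self_eq_norm_sq_to_K]; norm_cast
    rw [h7, Complex.im_mul_ofReal]
  rw [h6] at h1
  linarith

theorem SolR.norm_le (hT : ∀ f g, ⟪T f, g⟫_ℂ = ⟪f, T g⟫_ℂ) (h : SolR T V w f u) :
    |w.im| * ‖u‖ ≤ ‖f‖ := by
  have h1 := h.im_inner hT
  have h2 : |w.im| * ‖u‖ ^ 2 ≤ ‖u‖ * ‖f‖ := by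
    have h3 := Complex.abs_im_le_norm ⟪u, f⟫_ℂ
    rw [h1, abs_neg, abs_mul, abs_of_nonneg (sq_nonneg ‖u‖)] at h3
    exact h3.trans (norm_inner_le_norm _ _)
  rcases (norm_nonneg u).eq_or_lt with h4 | h4
  · rw [← h4, mul_zero]; exact norm_nonneg _
  · have h5 : ‖u‖ * (|w.im| * ‖u‖) ≤ ‖u‖ * ‖f‖ := by nlinarith
    exact le_of_mul_le_mul_left h5 h4

theorem SolR.unique (hT : ∀ f g, ⟪T f, g⟫_ℂ = ⟪f, T g⟫_ℂ) (hw : w.im ≠ 0)
    (h1 : SolR T V w f u) (h2 : SolR T V w f v) : u = v := by
  have h3 := (h1.sub h2).norm_le hT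
  rw [sub_self, norm_zero] at h3
  have h4 : 0 < |w.im| := abs_pos.2 hw
  have h5 : ‖u - v‖ ≤ 0 := by
    by_contra h6
    push Not at h6
    have := mul_pos h4 h6
    linarith
  exact sub_eq_zero.1 (norm_le_zero_iff.1 h5)

/-- the resolvent `(T + V - z)⁻¹ f` for `Im z > 0` -/
def RR (T : E G →L[ℂ] E G) (V : G → ℝ) (z : ℂ) (f : E G) : E G :=
  Complex.I • ∫ t in Ioi (0 : ℝ), Complex.exp (Complex.I * z * t) • UU T V t f

theorem norm_exp_Izt (z : ℂ) (t : ℝ) :
    ‖Complex.exp (Complex.I * z * t)‖ = Real.exp (-z.im * t) := by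
  rw [Complex.norm_exp]
  congr 1
  rw [Complex.re_mul_ofReal]
  simp

section
variable [Countable G] (hT : ∀ f g, ⟪T f, g⟫_ℂ = ⟪f, T g⟫_ℂ)
include hT

theorem integrable_RR (V : G → ℝ) {z : ℂ} (hz : 0 < z.im) (f : E G) :
    IntegrableOn (fun t : ℝ => Complex.exp (Complex.I * z * t) • UU T V t f) (Ioi 0) := by
  have h1 : IntegrableOn (fun t : ℝ => Real.exp (-z.im * t) * ‖f‖) (Ioi 0) :=
    (exp_neg_integrableOn_Ioi 0 hz).mul_const _
  refine Integrable.mono' h1 ?_ ?_
  · apply Continuous.aestronglyMeasurable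
    exact (by fun_prop : Continuous fun t : ℝ => Complex.exp (Complex.I * z * t)).smul
      (continuous_UU_t T V f)
  · refine Eventually.of_forall fun t => ?_
    rw [norm_smul, norm_exp_Izt, norm_UU hT]

theorem solR_RR (V : G → ℝ) {z : ℂ} (hz : 0 < z.im) (f : E G) : SolR T V z f (RR T V z f) := by
  intro x
  set ψ : ℝ → E G := fun t => UU T V t f with hψ
  have hint := integrable_RR hT V hz f
  have hintx : ∀ y, IntegrableOn (fun t : ℝ => Complex.exp (Complex.I * z * t) * ψ t y) (Ioi 0) := by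
    intro y
    exact (ev y).integrable_comp hint
  have hintT : IntegrableOn (fun t : ℝ => Complex.exp (Complex.I * z * t) * (T (ψ t)) x)
      (Ioi 0) := by
    have h := ((ev x).comp T).integrable_comp hint
    refine h.congr (Eventually.of_forall fun t => ?_)
    show (T (Complex.exp (Complex.I * z * t) • ψ t)) x = _
    rw [map_smul, coe_smul]
  have e1 : RR T V z f x = Complex.I * ∫ t in Ioi (0 : ℝ), Complex.exp (Complex.I * z * t) * ψ t x := by
    unfold RR
    rw [coe_smul]
    congr 1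
    exact ((ev x).integral_comp_comm hint).symm
  have e2 : T (RR T V z f) x =
      Complex.I * ∫ t in Ioi (0 : ℝ), Complex.exp (Complex.I * z * t) * (T (ψ t)) x := by
    unfold RR
    rw [map_smul, coe_smul]
    congr 1
    have h := (((ev x).comp T).integral_comp_comm hint).symm
    refine h.trans ?_
    refine integral_congr_ae (Eventually.of_forall fun t => ?_)
    show (T (Complex.exp (Complex.I * z * t) • ψ t)) x = _
    rw [map_smul, coe_smul]
  have hd : ∀ t : ℝ, HasDerivAt (fun t : ℝ => Complex.exp (Complex.I * z * t) * ψ t x)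
      (Complex.I * z * (Complex.exp (Complex.I * z * t) * ψ t x) +
        (-Complex.I * (Complex.exp (Complex.I * z * t) * (T (ψ t)) x) +
        -Complex.I * V x * (Complex.exp (Complex.I * z * t) * ψ t x))) t := by
    intro t
    have h1 : HasDerivAt (fun t : ℝ => Complex.exp (Complex.I * z * t))
        (Complex.exp (Complex.I * z * t) * (Complex.I * z)) t := by
      have h2 : HasDerivAt (fun t : ℝ => Complex.I * z * (t : ℂ)) (Complex.I * z * 1) t :=
        (Complex.ofRealCLM.hasDerivAt (x := t)).const_mul (Complex.I * z)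
      rw [mul_one] at h2
      exact h2.cexp
    have h3 := h1.mul ((isSol_UU T V f).deriv t x)
    refine h3.congr_deriv ?_
    simp only [hψ]
    ring
  have hlim : Tendsto (fun t : ℝ => Complex.exp (Complex.I * z * t) * ψ t x) atTop (𝓝 0) := by
    rw [tendsto_zero_iff_norm_tendsto_zero]
    have h1 : Tendsto (fun t : ℝ => Real.exp (-z.im * t) * ‖f‖) atTop (𝓝 (0 * ‖f‖)) := by
      apply Tendsto.mul_const
      have h2 : Tendsto (fun t : ℝ => -z.im * t) atTop atBot := by
        have := tendsto_id.const_mul_atTop_of_neg (r := -z.im) (by linarith : -z.im < 0)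
          (f := (fun t : ℝ => t)) (l := atTop)
        simpa using this
      exact Real.tendsto_exp_atBot.comp h2
    rw [zero_mul] at h1
    refine squeeze_zero (fun _ => norm_nonneg _) (fun t => ?_) h1
    rw [norm_mul, norm_exp_Izt]
    gcongr
    refine (norm_coord_le _ _).trans ?_
    rw [hψ, norm_UU hT]
  have hi1 : IntegrableOn (fun t : ℝ =>
        (-Complex.I * (Complex.exp (Complex.I * z * t) * (T (ψ t)) x) +
        -Complex.I * V x * (Complex.exp (Complex.I * z * t) * ψ t x))) (Ioi 0) :=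
    ((hintT.const_mul _).add ((hintx x).const_mul _))
  have hi : IntegrableOn (fun t : ℝ => Complex.I * z * (Complex.exp (Complex.I * z * t) * ψ t x) +
        (-Complex.I * (Complex.exp (Complex.I * z * t) * (T (ψ t)) x) +
        -Complex.I * V x * (Complex.exp (Complex.I * z * t) * ψ t x))) (Ioi 0) :=
    ((hintx x).const_mul _).add hi1
  have h5 := integral_Ioi_of_hasDerivAt_of_tendsto
    ((hd 0).continuousAt.continuousWithinAt) (fun t _ => hd t) hi hlim
  rw [integral_add ((hintx x).const_mul _) hi1,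
    integral_add (hintT.const_mul _) ((hintx x).const_mul _), integral_const_mul,
    integral_const_mul, integral_const_mul] at h5
  rw [e1, e2]
  have h6 : ψ 0 x = f x := by rw [hψ]; simp only [UU_zero]
  rw [h6] at h5
  simp only [Complex.ofReal_zero, mul_zero, Complex.exp_zero, one_mul, zero_sub] at h5
  linear_combination -h5

end

end Pool.Agent.NoBal
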