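import Pool.Agent.Helper39_NoBal.Res

/-!
# Properties of the resolvent of `T + V`
-/

set_option autoImplicit false

open scoped ENNReal InnerProductSpace ComplexConjugate Topology Interval
open Filter MeasureTheory Set

noncomputable section

namespace Pool.Agent.NoBal

variable {G : Type*} [AddCommGroup G]

theorem SolR.star {T : E G →L[ℂ] E G} (hT : Hop T) {V : G → ℝ} {w : ℂ} {f u : E G}
    (h : SolR T V w f u) : SolR T V (conj w) (star f) (star u) := by
  intro x
  rw [hT.real, coe_star, coe_star, coe_star, ← h x]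
  simp only [map_sub, map_add, map_mul, Complex.conj_ofReal]

theorem SolR.shift {T : E G →L[ℂ] E G} (hT : Hop T) {V : G → ℝ} {w : ℂ} {f u : E G}
    (h : SolR T V w f u) (g : G) : SolR T (shV g V) w (sh g f) (sh g u) := by
  intro x
  rw [hT.inv]
  exact h (x - g)

variable [Countable G] {T : E G →L[ℂ] E G} (hT : Hop T) (V : G → ℝ) {z : ℂ} (hz : 0 < z.im)

include hT hz

theorem RR_unique {f u : E G} (h : SolR T V z f u) : u = RR T V z f :=
  h.unique hT.sa hz.ne' (solR_RR hT.sa V hz f)

theorem RR_add (f g : E G) : RR T V z (f + g) = RR T V z f + RR T V z g :=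
  (RR_unique hT V hz ((solR_RR hT.sa V hz f).add (solR_RR hT.sa V hz g))).symm

theorem RR_sub (f g : E G) : RR T V z (f - g) = RR T V z f - RR T V z g :=
  (RR_unique hT V hz ((solR_RR hT.sa V hz f).sub (solR_RR hT.sa V hz g))).symm

theorem RR_smul (c : ℂ) (f : E G) : RR T V z (c • f) = c • RR T V z f :=
  (RR_unique hT V hz ((solR_RR hT.sa V hz f).smul c)).symm

theorem im_norm_RR_le (f : E G) : z.im * ‖RR T V z f‖ ≤ ‖f‖ := by
  have h := (solR_RR hT.sa V hz f).norm_le hT.sa
  rwa [abs_of_pos hz] at h

theorem norm_RR_le (f : E G) : ‖RR T V z f‖ ≤ z.im⁻¹ * ‖f‖ := by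
  rw [inv_mul_eq_div, le_div_iff₀ hz, mul_comm]
  exact im_norm_RR_le hT V hz f

omit hT hz in
/-- the resolvent as a continuous linear map -/
def RL {T : E G →L[ℂ] E G} (hT : Hop T) (V : G → ℝ) {z : ℂ} (hz : 0 < z.im) : E G →L[ℂ] E G :=
  LinearMap.mkContinuous
    { toFun := RR T V z, map_add' := RR_add hT V hz, map_smul' := RR_smul hT V hz } z.im⁻¹
    (norm_RR_le hT V hz)

@[simp] theorem RL_apply (f : E G) : RL hT V hz f = RR T V z f := rfl

theorem RR_inj {f : E G} (h : RR T V z f = 0) : f = 0 := by
  have h1 := solR_RR hT.sa V hz f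
  rw [h] at h1
  ext x
  rw [← h1 x]
  simp

omit hT hz in
/-- the resolvent at `conj z` -/
def RC (T : E G →L[ℂ] E G) (V : G → ℝ) (z : ℂ) (f : E G) : E G := star (RR T V z (star f))

theorem solR_RC (f : E G) : SolR T V (conj z) f (RC T V z f) := by
  have h := (solR_RR hT.sa V hz (star f)).star hT
  rwa [star_star] at h

theorem RC_sub (f g : E G) : RC T V z (f - g) = RC T V z f - RC T V z g := by
  unfold RC
  rw [star_sub, RR_sub hT V hz, star_sub]

theorem RC_smul (c : ℂ) (f : E G) : RC T V z (c • f) = c • RC T V z f := by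
  unfold RC
  rw [star_smul, RR_smul hT V hz, star_smul, star_star]

/-- resolvent identity -/
theorem RC_eq (f : E G) : RC T V z f = RR T V z (f - (2 * Complex.I * z.im) • RC T V z f) := by
  apply RR_unique hT V hz
  have h := (solR_RC hT V hz f).change z
  have e : (conj z - z) = -(2 * Complex.I * z.im) := by
    apply Complex.ext <;> simp; ring
  rw [e, neg_smul, ← sub_eq_add_neg] at h
  exact h

theorem RR_eq' (f : E G) :
    RR T V z f = RC T V z (f + (2 * Complex.I * z.im) • RR T V z f) := by
  have h := (solR_RR hT.sa V hz f).change (conj z)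
  have e : (z - conj z) = (2 * Complex.I * z.im) := by
    apply Complex.ext <;> simp; ring
  rw [e] at h
  have hw : (conj z).im ≠ 0 := by simp [hz.ne']
  exact h.unique hT.sa hw (solR_RC hT V hz _)

theorem inner_RC (f g : E G) : ⟪RC T V z f, g⟫_ℂ = ⟪f, RR T V z g⟫_ℂ := by
  set u := RC T V z f with hu
  set v := RR T V z g with hv
  have h1 := solR_RC hT V hz f
  have h2 := solR_RR hT.sa V hz g
  rw [← hu] at h1
  rw [← hv] at h2
  have e1 : ∀ x, (g - T v + z • v) x = V x * v x := by
    intro x
    rw [coe_add, coe_sub, coe_smul, ← h2 x]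
    ring
  have e2 : ∀ x, (f - T u + conj z • u) x = V x * u x := by
    intro x
    rw [coe_add, coe_sub, coe_smul, ← h1 x]
    ring
  have h3 : ⟪u, g - T v + z • v⟫_ℂ = ⟪f - T u + conj z • u, v⟫_ℂ := by
    rw [lp.inner_eq_tsum, lp.inner_eq_tsum]
    refine tsum_congr fun x => ?_
    rw [RCLike.inner_apply, RCLike.inner_apply, e1, e2]
    show (V x : ℂ) * v x * conj (u x) = v x * conj ((V x : ℂ) * u x)
    rw [map_mul, Complex.conj_ofReal]
    ring
  rw [inner_add_right, inner_sub_right, inner_smul_right, inner_add_left, inner_sub_left,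
    inner_smul_left, Complex.conj_conj, hT.sa] at h3
  linear_combination h3

theorem im_inner_RR (f : E G) : (⟪f, RR T V z f⟫_ℂ).im = z.im * ‖RR T V z f‖ ^ 2 := by
  have h := (solR_RR hT.sa V hz f).im_inner hT.sa
  rw [← inner_conj_symm, Complex.conj_im] at h
  linarith

theorem norm_RC (f : E G) : ‖RC T V z f‖ = ‖RR T V z f‖ := by
  apply norm_eq_of_sq
  have h1 := (solR_RC hT V hz f).im_inner hT.sa
  rw [inner_RC hT V hz, im_inner_RR hT V hz, Complex.conj_im] at h1
  have h2 : z.im * (‖RC T V z f‖ ^ 2) = z.im * ‖RR T V z f‖ ^ 2 := by linarith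
  exact mul_left_cancel₀ hz.ne' h2

theorem RR_sh (g : G) (f : E G) : RR T (shV g V) z (sh g f) = sh g (RR T V z f) :=
  (RR_unique hT _ hz ((solR_RR hT.sa V hz f).shift hT g)).symm

theorem RC_sh (g : G) (f : E G) : RC T (shV g V) z (sh g f) = sh g (RC T V z f) := by
  unfold RC
  rw [star_sh, RR_sh hT V hz, star_sh]

/-- resolvent identity for two points of the upper half plane -/
theorem RR_RR {z' : ℂ} (hz' : 0 < z'.im) (f : E G) :
    RR T V z' f = RR T V z f + (z' - z) • RR T V z (RR T V z' f) := by
  have h := (solR_RR hT.sa V hz' f).change z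
  have h2 := RR_unique hT V hz h
  rw [RR_add hT V hz, RR_smul hT V hz] at h2
  exact h2

/-- if a bounded operator commutes with the unitary group, it commutes with the resolvent -/
theorem comm_RR {A : E G →L[ℂ] E G} (hA : ∀ t f, A (UU T V t f) = UU T V t (A f)) (f : E G) :
    A (RR T V z f) = RR T V z (A f) := by
  unfold RR
  rw [map_smul]
  congr 1
  have h := (A.integral_comp_comm (integrable_RR hT.sa V hz f)).symm
  refine h.trans ?_
  refine integral_congr_ae (Eventually.of_forall fun t => ?_)
  simp only [map_smul, hA]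

theorem comm_RC {A : E G →L[ℂ] E G} (hA : ∀ t f, A (UU T V t f) = UU T V t (A f)) (f : E G) :
    A (RC T V z f) = RC T V z (A f) := by
  have hw : (conj z).im ≠ 0 := by simp [hz.ne']
  have h1 : SolR T V (conj z) (A f) (A (RC T V z f)) := by
    -- `A (RR g) = RR (A g)` with `RC f = RR (f - 2iε RC f)`
    have h2 := RC_eq hT V hz f
    have h3 : A (RC T V z f) = RR T V z (A f - (2 * Complex.I * z.im) • A (RC T V z f)) := by
      conv_lhs => rw [h2]
      rw [comm_RR hT V hz hA, map_sub, map_smul]
    have h4 := solR_RR hT.sa V hz (A f - (2 * Complex.I * z.im) • A (RC T V z f))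
    rw [← h3] at h4
    have h5 := h4.change (conj z)
    have e : (z - conj z) = (2 * Complex.I * z.im) := by
      apply Complex.ext <;> simp; ring
    rw [e, sub_add_cancel] at h5
    exact h5
  exact h1.unique hT.sa hw (solR_RC hT V hz _)

section del
variable [DecidableEq G]

theorem RR_symm (x y : G) : RR T V z (del y) x = RR T V z (del x) y := by
  have h1 := inner_RC hT V hz (del x) (del y)
  rw [inner_del_left, inner_del_right] at h1
  unfold RC at h1
  rw [star_del, coe_star, Complex.conj_conj] at h1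
  exact h1.symm

theorem RR_del_ne (x : G) : RR T V z (del x) ≠ 0 := by
  intro h
  have h1 := RR_inj hT V hz h
  have h2 := norm_del x
  rw [h1, norm_zero] at h2
  exact zero_ne_one h2

theorem im_RR_del (x : G) : (RR T V z (del x) x).im = z.im * ‖RR T V z (del x)‖ ^ 2 := by
  rw [← im_inner_RR hT V hz, inner_del_left]

theorem im_RR_del_pos (x : G) : 0 < (RR T V z (del x) x).im := by
  rw [im_RR_del hT V hz]
  have := norm_pos_iff.2 (RR_del_ne hT V hz x)
  positivity

variable {V' : G → ℝ} {s : ℝ} {x₀ : G}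

omit hT hz [Countable G] in
theorem SolR.rank_one {f u : E G} {w : ℂ} (hV : ∀ x, V' x = V x + if x = x₀ then s else 0)
    (h : SolR T V w f u) : SolR T V' w (f + ((s : ℂ) * u x₀) • del x₀) u := by
  intro x
  rw [coe_add, coe_smul, ← h x, hV, del_apply]
  split_ifs with h1
  · subst h1
    push_cast
    ring
  · push_cast
    ring

theorem RR_rank_one (hV : ∀ x, V' x = V x + if x = x₀ then s else 0) (f : E G) :
    RR T V z f = RR T V' z f + ((s : ℂ) * RR T V z f x₀) • RR T V' z (del x₀) := by
  have h := RR_unique hT V' hz ((solR_RR hT.sa V hz f).rank_one V hV)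
  rw [RR_add hT V' hz, RR_smul hT V' hz] at h
  exact h

/-- `(1 + s G) R' δ = R δ` -/
theorem RR_rank_one_del (hV : ∀ x, V' x = V x + if x = x₀ then s else 0) :
    (1 + (s : ℂ) * RR T V z (del x₀) x₀) • RR T V' z (del x₀) = RR T V z (del x₀) := by
  have h := RR_rank_one hT V hz hV (del x₀)
  rw [add_smul, one_smul]
  exact h.symm

omit hT hz [Countable G] [AddCommGroup G] in
theorem rank_one_symm (hV : ∀ x, V' x = V x + if x = x₀ then s else 0) :
    ∀ x, V x = V' x + if x = x₀ then -s else 0 := by
  intro x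
  rw [hV]
  split_ifs <;> ring

theorem RR_rank_one_zero (hV : ∀ x, V' x = V x + if x = x₀ then s else 0) {f : E G}
    (h0 : RR T V' z f x₀ = 0) : RR T V' z f = RR T V z f := by
  have h := RR_rank_one hT V' hz (rank_one_symm V hV) f
  rw [h0, mul_zero, zero_smul, add_zero] at h
  exact h

end del

end Pool.Agent.NoBal
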